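import Pool.Agent.Helper72.PLK.Full
import Pool.Agent.Helper54.NB.Str

/-! PLANKS at full depth (`PLK1`) from `ST 1 2`. -/

set_option autoImplicit false

namespace Pool.Agent.Helper72.PLK

open Finset Filter Topology Matrix Pool.Agent.Helper69.RK Pool.Agent.Helper31.EC
open Pool.Agent.Helper31.EC.Sp
open Pool.Agent.Helper89.LX (qf)
open Pool.Agent.Helper3.LF (phi typ_mono typ_and typ_sub_ge pl)

noncomputable section

variable {S : Sp}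

/-- the statement for tame functions, in the space of the package -/
theorem core {G : ∀ k, (S.F k).Ω → Matrix M4 M4 ℝ} {t cR XR cz Xz : TR S} (N : Nrm S G t cR XR cz Xz) {ρ e e' : ℝ}
    (hρ : 0 < ρ) (hee : e < e') (he1 : e' < 1) (U : Un S t (cR + t * XR) (cz + t * Xz) ρ)
    (hpos : ¬ TR.dg XR e ⊔ TR.dg Xz e ≤ TR.dg (cR + t * XR) 1 ⊔ TR.dg (cz + t * Xz) 1 ⊔ TR.dg t 1) :
    ∃ (E : ∀ k, (S.F k).Ω → Prop) (_ : 0 < ul (S.pr E)) (α β0 β1 : TR S),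
      (∀ᶠ k in UF, ∀ ω, ((S.rest E).F k).μ ω ≠ 0 → lR (S := S) G k ω ≤ e') ∧
      TR.dg α 1 ≤ io G ∧ TR.dg β0 1 ≤ io G ∧ TR.dg β1 1 ≤ io G ∧
      TR.Ag 1 (cz + t * Xz) (β0 + β1 * t + α * (cR + t * XR)) := by
  obtain ⟨K2, hK2, -, hT2⟩ := N.az_typ hρ U
  obtain ⟨α, β0, β1, h1, h2, h3, h4⟩ := N.plane hK2 hT2
  rcases typ_or (fun k ω => e' ≤ lR G k ω) with h5 | h5
  · exfalso
    apply hpos
    refine (sup_le_sup (TR.dg_mono _ hee.le) (TR.dg_mono _ hee.le)).trans ?_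
    exact (N.bush hK2 hT2 he1.le h5).trans N.leB
  · refine ⟨_, h5, α, β0, β1, ?_, h1, h2, h3, h4⟩
    filter_upwards [Pool.Agent.Helper25.EC.rest_mem _ h5] with k hk ω hω
    exact (not_le.mp (hk ω hω).2).le

/-- PLANKS at full depth -/
theorem plk1 (hst : Pool.Agent.Helper59.EV.ST 1 2) : Pool.Agent.Helper54.NB.PLK1 := by
  intro S t cR XR cz Xz ρ e e' hρ he hee he1 hT hU hpos
  obtain ⟨t, rfl⟩ := QS.mk_surj t
  obtain ⟨cR, rfl⟩ := QS.mk_surj cR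
  obtain ⟨XR, rfl⟩ := QS.mk_surj XR
  obtain ⟨cz, rfl⟩ := QS.mk_surj cz
  obtain ⟨Xz, rfl⟩ := QS.mk_surj Xz
  have hR : QS.mk cR + QS.mk t * QS.mk XR = QS.mk (cR + t * XR) := by rw [map_add, map_mul]
  have hz : QS.mk cz + QS.mk t * QS.mk Xz = QS.mk (cz + t * Xz) := by rw [map_add, map_mul]
  rw [hR, hz] at hpos
  simp only [hR, hz] at hU
  simp only [hR, hz]
  have dm : ∀ f : TR S, QS.dg (QS.mk f) 1 = TR.dg f 1 := fun f => QS.dg_mk f le_rfl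
  have he0 : 0 ≤ e' := by linarith
  rw [dm, dm, dm, dm, dm] at hT
  rw [dm, dm, dm, QS.dg_mk XR (by linarith), QS.dg_mk Xz (by linarith)] at hpos
  obtain ⟨K⟩ := exists_pk hst (sy t cR XR cz Xz hT)
  have N := nrm_of_pk K
  have hR' : K.p.tr cR + K.p.tr t * K.p.tr XR = K.p.tr (cR + t * XR) := by rw [map_add, map_mul]
  have hz' : K.p.tr cz + K.p.tr t * K.p.tr Xz = K.p.tr (cz + t * Xz) := by rw [map_add, map_mul]
  have U : Un K.W (K.p.tr t) (K.p.tr cR + K.p.tr t * K.p.tr XR) (K.p.tr cz + K.p.tr t * K.p.tr Xz) ρ := by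
    intro E hE v hv0 hv1
    have h1 := hU K.W K.p E hE v hv0 hv1
    rw [QS.dg_mk _ hv1, dm, dm, dm] at h1
    rw [hR', hz', K.p.tr_dg, K.p.tr_dg, K.p.tr_dg, K.p.tr_dg, ← K.p.map_sup, ← K.p.map_sup]
    exact h1
  obtain ⟨E, hE, α, β0, β1, hlt, hα, hβ0, hβ1, hag⟩ := core N hρ hee he1 U (by
    intro hc
    rw [hR', hz', K.p.tr_dg, K.p.tr_dg, K.p.tr_dg, K.p.tr_dg, K.p.tr_dg, ← K.p.map_sup, ← K.p.map_sup,
      ← K.p.map_sup, K.p.map_le] at hc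
    rw [h_zero hc] at hpos
    exact lt_irrefl _ hpos)
  have hlt' : ∀ᶠ k in UF, ∀ ω, ((K.W.rest E).F k).μ ω ≠ 0 → lR (S := K.W.rest E) K.G k ω ≤ e' := by
    rw [lR_rest E K.G]
    exact hlt
  have N' := N.rest E hE
  have hio : io (S := K.W.rest E) K.G = restL E hE (io K.G) := (restL_io E hE N.ln.bdd).symm
  have dw : ∀ f : TR K.W, QS.dg (QS.mk f) 1 = TR.dg f 1 := fun f => QS.dg_mk f le_rfl
  have hRr : ∀ r, TR.dg (TR.rest E (K.p.tr cR) + TR.rest E (K.p.tr t) * TR.rest E (K.p.tr XR)) r =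
      restL E hE (K.p.map (TR.dg (cR + t * XR) r)) := by
    intro r
    rw [← K.p.tr_dg, ← TR.rest_dg E hE]
    rfl
  have htr : TR.dg (TR.rest E (K.p.tr t)) 1 = restL E hE (K.p.map (TR.dg t 1)) := by
    rw [← K.p.tr_dg, ← TR.rest_dg E hE]
  refine ⟨K.W, K.p, E, hE, QS.rest E hE (QS.mk α), QS.rest E hE (QS.mk β0), QS.rest E hE (QS.mk β1),
    restL E hE (io K.G), ?_, ?_, ?_, ?_, ?_, ?_, ?_, ?_⟩
  · apply restL_mono
    rw [dm, dm, dm, dm, K.p.map_sup, K.p.map_sup, K.p.map_sup, ← K.p.tr_dg, ← K.p.tr_dg, ← K.p.tr_dg, ← K.p.tr_dg]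
    exact N.leA
  · apply restL_mono
    rw [dm, dm, dm, K.p.map_sup, K.p.map_sup, ← K.p.tr_dg, ← K.p.tr_dg, ← K.p.tr_dg, ← hR', ← hz']
    exact N.leB
  · rw [QS.rest_dg, dw]
    exact restL_mono E hE hα
  · rw [QS.rest_dg, dw]
    exact restL_mono E hE hβ0
  · rw [QS.rest_dg, dw]
    exact restL_mono E hE hβ1
  · rw [K.p.qs_mk, K.p.qs_mk, K.p.qs_mk, ← map_mul, ← map_mul, ← map_add, ← map_add, ← map_mul, ← map_mul,
      ← map_add, ← map_add, ← hR', ← hz']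
    congr 1
    exact QS.mk_eq.mpr hag
  · rw [dm, dm, QS.dg_mk _ he1.le, K.p.map_sup, restL_sup, ← hRr, ← hRr, ← htr, ← hio]
    exact N'.full_e he0 he1.le hlt'
  · intro D q τ
    obtain ⟨τ, rfl⟩ := QS.mk_surj τ
    rw [dm, QS.dg_mk _ he1.le, ← hRr, ← htr, ← hio]
    have h1 := N'.cmp he0 hlt' q τ
    have h2 := N'.e_ge he1.le
    refine le_trans ?_ (h1.trans h2)
    rw [K.p.qs_mk, K.p.qs_mk, QS.rest_mk, QS.rest_mk, q.qs_mk, q.qs_mk, ← map_mul, ← map_add,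
      QS.dg_mk _ he1.le, QS.dg_mk τ le_rfl]

end

end Pool.Agent.Helper72.PLK
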