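import Pool.Agent.Helper48.NS.Gf
import Pool.Agent.Helper89.LX.Frm

/-! Forms of degree `1` in the variables `t, R, z`: gradients are constant; the regular volume; completion of squares. -/

set_option autoImplicit false

namespace Pool.Agent.Helper72.PLK

open Finset Matrix MvPolynomial
open Pool.Agent.Helper95.LF (PdM)
open Pool.Agent.Helper3.LF Pool.Agent.Helper48.NS
open Pool.Agent.Helper89.LX (qf)

noncomputable section

/-- monomials `1, t, R, z` -/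
abbrev M4 : Type := Mon (2 + 1) 1

theorem dd_apply (i : Fin (2 + 1)) (p : Fin (2 + 1) → ℝ) (a : M4) :
    dd i p a = ((a.1 i : ℕ) : ℝ) * (p 0 ^ ((a.1 0 : ℕ) - if i = 0 then 1 else 0) *
      p 1 ^ ((a.1 1 : ℕ) - if i = 1 then 1 else 0) * p 2 ^ ((a.1 2 : ℕ) - if i = 2 then 1 else 0)) := by
  unfold dd Mon.mon
  rw [pderiv_monomial, eval_monomial, one_mul, Finsupp.prod_fintype _ _ (fun _ => pow_zero _)]
  have h1 : ∀ j : Fin (2 + 1), (a.ex - Finsupp.single i 1 : Fin (2 + 1) →₀ ℕ) j =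
      (a.1 j : ℕ) - if i = j then 1 else 0 := by
    intro j
    rw [Finsupp.coe_tsub, Pi.sub_apply, Finsupp.single_apply]
    rfl
  rw [Fin.prod_univ_three, h1, h1, h1]
  rfl

theorem vv_apply' (p : Fin (2 + 1) → ℝ) (a : M4) :
    vv p a = p 0 ^ (a.1 0 : ℕ) * p 1 ^ (a.1 1 : ℕ) * p 2 ^ (a.1 2 : ℕ) := by
  rw [vv_apply, Fin.prod_univ_three]

/-- the vector of the constant -/
def w1 : M4 → ℝ := vv 0
/-- the vectors of the variables -/
def wv (i : Fin (2 + 1)) : M4 → ℝ := dd i 0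

theorem fin2_cases (x : Fin (1 + 1)) : (x : ℕ) = 0 ∨ (x : ℕ) = 1 := by omega

theorem m4_cases (a : M4) : ((a.1 0 : ℕ) = 0 ∧ (a.1 1 : ℕ) = 0 ∧ (a.1 2 : ℕ) = 0) ∨
    ((a.1 0 : ℕ) = 1 ∧ (a.1 1 : ℕ) = 0 ∧ (a.1 2 : ℕ) = 0) ∨ ((a.1 0 : ℕ) = 0 ∧ (a.1 1 : ℕ) = 1 ∧ (a.1 2 : ℕ) = 0) ∨
    ((a.1 0 : ℕ) = 0 ∧ (a.1 1 : ℕ) = 0 ∧ (a.1 2 : ℕ) = 1) := by
  have h1 := a.2
  rw [Fin.sum_univ_three] at h1
  have h2 := fin2_cases (a.1 0)
  have h3 := fin2_cases (a.1 1)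
  have h4 := fin2_cases (a.1 2)
  omega

theorem dd_const (i : Fin (2 + 1)) (p : Fin (2 + 1) → ℝ) : (dd i p : M4 → ℝ) = wv i := by
  funext a
  unfold wv
  rw [dd_apply, dd_apply]
  rcases m4_cases a with ⟨h0, h1, h2⟩ | ⟨h0, h1, h2⟩ | ⟨h0, h1, h2⟩ | ⟨h0, h1, h2⟩ <;>
    fin_cases i <;> simp [h0, h1, h2]

theorem vv_aff (p : Fin (2 + 1) → ℝ) : (vv p : M4 → ℝ) = w1 + (p 0 • wv 0 + p 1 • wv 1 + p 2 • wv 2) := by
  funext a
  unfold w1 wv
  simp only [Pi.add_apply, Pi.smul_apply, smul_eq_mul]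
  rw [vv_apply', vv_apply', dd_apply, dd_apply, dd_apply]
  rcases m4_cases a with ⟨h0, h1, h2⟩ | ⟨h0, h1, h2⟩ | ⟨h0, h1, h2⟩ | ⟨h0, h1, h2⟩ <;> simp [h0, h1, h2]

/-- the coefficient vector `(x, y, u, v)` -/
def cv (x y u v : ℝ) : M4 → ℝ := x • w1 + (y • wv 0 + u • wv 1 + v • wv 2)

theorem vv_cv (p : Fin (2 + 1) → ℝ) : (vv p : M4 → ℝ) = cv 1 (p 0) (p 1) (p 2) := by
  rw [vv_aff]
  unfold cv
  rw [one_smul]

theorem wv0 : wv 0 = cv 0 1 0 0 := by unfold cv; simp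
theorem wv1 : wv 1 = cv 0 0 1 0 := by unfold cv; simp
theorem wv2 : wv 2 = cv 0 0 0 1 := by unfold cv; simp

/-- the value of a form at `(x, y, u, v)` -/
def qv (A : Matrix M4 M4 ℝ) (x y u v : ℝ) : ℝ := qf A (cv x y u v)

/-- entries in the basis -/
def bf (A : Matrix M4 M4 ℝ) (a b : M4 → ℝ) : ℝ := a ⬝ᵥ (A *ᵥ b)

theorem bf_comm {A : Matrix M4 M4 ℝ} (hA : A.IsSymm) (a b : M4 → ℝ) : bf A a b = bf A b a := by
  unfold bf
  rw [Matrix.dotProduct_mulVec, ← Matrix.mulVec_transpose, hA, dotProduct_comm]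

theorem qv_eq {A : Matrix M4 M4 ℝ} (hA : A.IsSymm) (x y u v : ℝ) :
    qv A x y u v = x ^ 2 * bf A w1 w1 + y ^ 2 * bf A (wv 0) (wv 0) + u ^ 2 * bf A (wv 1) (wv 1) +
      v ^ 2 * bf A (wv 2) (wv 2) + 2 * (x * y * bf A w1 (wv 0) + x * u * bf A w1 (wv 1) + x * v * bf A w1 (wv 2) +
        y * u * bf A (wv 0) (wv 1) + y * v * bf A (wv 0) (wv 2) + u * v * bf A (wv 1) (wv 2)) := by
  have e1 : qv A x y u v = bf A (cv x y u v) (cv x y u v) := rfl
  rw [e1]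
  have h10 := bf_comm hA (wv 0) w1
  have h11 := bf_comm hA (wv 1) w1
  have h12 := bf_comm hA (wv 2) w1
  have h01 := bf_comm hA (wv 1) (wv 0)
  have h02 := bf_comm hA (wv 2) (wv 0)
  have h03 := bf_comm hA (wv 2) (wv 1)
  have add_l : ∀ a b c, bf A (a + b) c = bf A a c + bf A b c := fun a b c => add_dotProduct _ _ _
  have add_r : ∀ a b c, bf A a (b + c) = bf A a b + bf A a c := fun a b c => by
    unfold bf
    rw [Matrix.mulVec_add, dotProduct_add]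
  have sm_l : ∀ (s : ℝ) a b, bf A (s • a) b = s * bf A a b := fun s a b => by
    unfold bf
    rw [smul_dotProduct, smul_eq_mul]
  have sm_r : ∀ (s : ℝ) a b, bf A a (s • b) = s * bf A a b := fun s a b => by
    unfold bf
    rw [Matrix.mulVec_smul, dotProduct_smul, smul_eq_mul]
  unfold cv
  simp only [add_l, add_r, sm_l, sm_r]
  rw [h10, h11, h12, h01, h02, h03]
  ring

/-- the coefficient of `z ^ 2` -/
def az (A : Matrix M4 M4 ℝ) : ℝ := bf A (wv 2) (wv 2)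
/-- the coefficient of `R ^ 2` after the elimination of `z` -/
def aR (A : Matrix M4 M4 ℝ) : ℝ := bf A (wv 1) (wv 1) - bf A (wv 1) (wv 2) ^ 2 / bf A (wv 2) (wv 2)

theorem az_eq (A : Matrix M4 M4 ℝ) : az A = qv A 0 0 0 1 := by
  unfold az qv qf bf
  rw [wv2]

theorem self_ge (w : M4 → ℝ) (a : M4) : w a ^ 2 ≤ w ⬝ᵥ w := by
  unfold dotProduct
  have h1 : w a ^ 2 = w a * w a := by ring
  rw [h1]
  exact Finset.single_le_sum (f := fun a => w a * w a) (fun _ _ => mul_self_nonneg _) (Finset.mem_univ a)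

/-- the monomial `t, R, z` -/
def mm (i : Fin (2 + 1)) : M4 := ⟨fun j => if j = i then 1 else 0, by
  rw [Fin.sum_univ_three]
  fin_cases i <;> decide⟩

theorem cv_mm2 (x y u v : ℝ) : cv x y u v (mm 2) = v := by
  unfold cv w1 wv
  simp only [Pi.add_apply, Pi.smul_apply, smul_eq_mul]
  rw [vv_apply', dd_apply, dd_apply, dd_apply]
  simp [mm]

theorem cv_mm1 (x y u v : ℝ) : cv x y u v (mm 1) = u := by
  unfold cv w1 wv
  simp only [Pi.add_apply, Pi.smul_apply, smul_eq_mul]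
  rw [vv_apply', dd_apply, dd_apply, dd_apply]
  simp [mm]

/-- forms above the identity -/
structure Gd (A : Matrix M4 M4 ℝ) : Prop where
  symm : A.IsSymm
  ge : ∀ v, v ⬝ᵥ v ≤ qf A v

namespace Gd

variable {A : Matrix M4 M4 ℝ} (hA : Gd A)

include hA

theorem nonneg (v : M4 → ℝ) : 0 ≤ qf A v := by
  refine le_trans ?_ (hA.ge v)
  unfold dotProduct
  exact Finset.sum_nonneg fun _ _ => mul_self_nonneg _

theorem qv_nonneg (x y u v : ℝ) : 0 ≤ qv A x y u v := hA.nonneg _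

theorem az_ge : 1 ≤ az A := by
  have h1 := (self_ge (cv 0 0 0 1) (mm 2)).trans (hA.ge _)
  rw [cv_mm2] at h1
  rw [az_eq]
  unfold qv
  linarith

theorem az_pos : 0 < az A := lt_of_lt_of_le one_pos hA.az_ge

/-- completion of the square in `R, z` -/
theorem qv_Rz (u v : ℝ) : qv A 0 0 u v = aR A * u ^ 2 + az A * (v + bf A (wv 1) (wv 2) / az A * u) ^ 2 := by
  have h0 : bf A (wv 2) (wv 2) ≠ 0 := hA.az_pos.ne'
  rw [qv_eq hA.symm]
  unfold aR az
  field_simp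
  ring

theorem aR_ge : 1 ≤ aR A := by
  have h1 := (self_ge (cv 0 0 1 (-(bf A (wv 1) (wv 2) / az A))) (mm 1)).trans (hA.ge _)
  rw [cv_mm1] at h1
  have h2 := hA.qv_Rz 1 (-(bf A (wv 1) (wv 2) / az A))
  unfold qv at h2
  rw [h2] at h1
  have e : aR A * 1 ^ 2 + az A * (-(bf A (wv 1) (wv 2) / az A) + bf A (wv 1) (wv 2) / az A * 1) ^ 2 = aR A := by ring
  rw [e] at h1
  linarith

theorem aR_pos : 0 < aR A := lt_of_lt_of_le one_pos hA.aR_ge

theorem aR_le : aR A ≤ qv A 0 0 1 0 := by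
  have h1 := hA.qv_Rz 1 0
  have h2 := mul_nonneg hA.az_pos.le (sq_nonneg (0 + bf A (wv 1) (wv 2) / az A * 1))
  linarith

theorem R_le (u v : ℝ) : aR A * u ^ 2 ≤ qv A 0 0 u v := by
  rw [hA.qv_Rz u v]
  have := mul_nonneg hA.az_pos.le (sq_nonneg (v + bf A (wv 1) (wv 2) / az A * u))
  linarith

theorem z_le (u v : ℝ) : az A * (v + bf A (wv 1) (wv 2) / az A * u) ^ 2 ≤ qv A 0 0 u v := by
  rw [hA.qv_Rz u v]
  have := mul_nonneg hA.aR_pos.le (sq_nonneg u)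
  linarith

/-- completion of the square in `z` -/
theorem pt_le (x y u v : ℝ) : az A * (v + (bf A w1 (wv 2) * x + bf A (wv 0) (wv 2) * y + bf A (wv 1) (wv 2) * u) / az A) ^ 2 ≤
    qv A x y u v := by
  have h0 : bf A (wv 2) (wv 2) ≠ 0 := hA.az_pos.ne'
  have h1 := hA.qv_nonneg x y u (-((bf A w1 (wv 2) * x + bf A (wv 0) (wv 2) * y + bf A (wv 1) (wv 2) * u) / az A))
  have h2 : qv A x y u v = qv A x y u (-((bf A w1 (wv 2) * x + bf A (wv 0) (wv 2) * y + bf A (wv 1) (wv 2) * u) / az A)) +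
      az A * (v + (bf A w1 (wv 2) * x + bf A (wv 0) (wv 2) * y + bf A (wv 1) (wv 2) * u) / az A) ^ 2 := by
    rw [qv_eq hA.symm, qv_eq hA.symm]
    unfold az
    field_simp
    ring
  linarith

/-- Cauchy-Schwarz -/
theorem cs_R : bf A (wv 1) (wv 2) ^ 2 ≤ qv A 0 0 1 0 * az A := by
  have h0 := hA.az_pos
  have h1 := hA.aR_pos
  have h2 : aR A * az A = qv A 0 0 1 0 * az A - bf A (wv 1) (wv 2) ^ 2 := by
    have h3 : bf A (wv 2) (wv 2) ≠ 0 := hA.az_pos.ne'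
    rw [qv_eq hA.symm]
    unfold aR az
    field_simp
    ring
  have := mul_pos h1 h0
  linarith

theorem cs_t : bf A (wv 0) (wv 2) ^ 2 ≤ qv A 0 1 0 0 * az A := by
  have h0 := hA.az_pos
  have h3 : bf A (wv 2) (wv 2) ≠ 0 := hA.az_pos.ne'
  have h1 := hA.qv_nonneg 0 1 0 (-(bf A (wv 0) (wv 2) / az A))
  have h2 : qv A 0 1 0 (-(bf A (wv 0) (wv 2) / az A)) * az A = qv A 0 1 0 0 * az A - bf A (wv 0) (wv 2) ^ 2 := by
    rw [qv_eq hA.symm, qv_eq hA.symm]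
    unfold az
    field_simp
    ring
  have := mul_nonneg h1 h0.le
  linarith

/-- triangle inequality for three vectors -/
theorem tri (x y u v x' y' u' v' x'' y'' u'' v'' : ℝ) :
    qv A (x + x' + x'') (y + y' + y'') (u + u' + u'') (v + v' + v'') ≤
      3 * (qv A x y u v + qv A x' y' u' v' + qv A x'' y'' u'' v'') := by
  have h1 := hA.qv_nonneg (x - x') (y - y') (u - u') (v - v')
  have h2 := hA.qv_nonneg (x - x'') (y - y'') (u - u'') (v - v'')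
  have h3 := hA.qv_nonneg (x' - x'') (y' - y'') (u' - u'') (v' - v'')
  have h4 : 3 * (qv A x y u v + qv A x' y' u' v' + qv A x'' y'' u'' v'') -
      qv A (x + x' + x'') (y + y' + y'') (u + u' + u'') (v + v' + v'') =
      qv A (x - x') (y - y') (u - u') (v - v') + qv A (x - x'') (y - y'') (u - u'') (v - v'') +
      qv A (x' - x'') (y' - y'') (u' - u'') (v' - v'') := by
    simp only [qv_eq hA.symm]
    ring
  linarith

theorem smul (s x y u v : ℝ) : qv A (s * x) (s * y) (s * u) (s * v) = s ^ 2 * qv A x y u v := by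
  rw [qv_eq hA.symm, qv_eq hA.symm]
  ring

end Gd

end

end Pool.Agent.Helper72.PLK
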