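import Pool.Agent.Helper72.PLK.Plane

/-! The bush of the lines with one form: if the exponent of the second coordinate is at least `e` then the velocities
are functions of the form up to level `e`. -/

set_option autoImplicit false

namespace Pool.Agent.Helper72.PLK

open Finset Filter Topology Matrix Pool.Agent.Helper69.RK Pool.Agent.Helper31.EC
open Pool.Agent.Helper31.EC.Sp
open Pool.Agent.Helper89.LX (qf)
open Pool.Agent.Helper3.LF (phi typ_mono typ_and typ_sub_ge)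

noncomputable section

variable {S : Sp}

/-- sizes of a difference -/
theorem dif_le {A : Matrix M4 M4 ℝ} (hA : Gd A) {u v K K2 M e n : ℝ} (hq : qv A 0 0 u v ≤ 54 * K) (hK : 0 ≤ K)
    (hK2 : 0 ≤ K2) (he : (2 : ℝ) ^ (2 * e * n) ≤ aR A) (hP : (2 : ℝ) ^ (2 * 1 * n) ≤ K2 * az A) (hM : |kR A| ≤ M)
    (he1 : e ≤ 1) (hn : 0 < n) :
    |u| ≤ (54 * K + 1) * 2 ^ (-(e * n)) ∧ |v| ≤ ((54 * K * K2 + 1) + M * (54 * K + 1)) * 2 ^ (-(e * n)) := by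
  have h54 : 0 ≤ 54 * K := by linarith
  have hu := size_of_sq he h54 ((hA.R_le u v).trans hq)
  refine ⟨hu, ?_⟩
  have h1 : (K2 * az A) * (v + bf A (wv 1) (wv 2) / az A * u) ^ 2 ≤ 54 * K * K2 := by
    have := mul_le_mul_of_nonneg_left ((hA.z_le u v).trans hq) hK2
    linarith
  have h2 := size_of_sq hP (mul_nonneg h54 hK2) h1
  have h3 : (2 : ℝ) ^ (-(1 * n)) ≤ 2 ^ (-(e * n)) := by
    apply Real.rpow_le_rpow_of_exponent_le (by norm_num)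
    have := mul_le_mul_of_nonneg_right he1 hn.le
    linarith
  have h4 : |v + bf A (wv 1) (wv 2) / az A * u| ≤ (54 * K * K2 + 1) * 2 ^ (-(e * n)) :=
    h2.trans (mul_le_mul_of_nonneg_left h3 (by positivity))
  have h5 : |bf A (wv 1) (wv 2) / az A| ≤ M := by
    unfold kR at hM
    rwa [abs_neg] at hM
  have h6 : |bf A (wv 1) (wv 2) / az A * u| ≤ M * ((54 * K + 1) * 2 ^ (-(e * n))) := by
    rw [abs_mul]
    exact mul_le_mul h5 hu (abs_nonneg _) ((abs_nonneg _).trans h5)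
  have h7 : v = (v + bf A (wv 1) (wv 2) / az A * u) - bf A (wv 1) (wv 2) / az A * u := by ring
  rw [h7]
  refine (abs_sub _ _).trans ?_
  calc |v + bf A (wv 1) (wv 2) / az A * u| + |bf A (wv 1) (wv 2) / az A * u| ≤
      (54 * K * K2 + 1) * 2 ^ (-(e * n)) + M * ((54 * K + 1) * 2 ^ (-(e * n))) := add_le_add h4 h6
    _ = _ := by ring

theorem vel_le {A : Matrix M4 M4 ℝ} (hA : Gd A) {r K K2 M e n cR XR cz Xz cR' XR' cz' Xz' : ℝ} (hr : 0 ≤ r)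
    (h0 : phi r A ![0, cR + 0 * XR, cz + 0 * Xz] ≤ K) (h1 : phi r A ![1, cR + 1 * XR, cz + 1 * Xz] ≤ K)
    (h0' : phi r A ![0, cR' + 0 * XR', cz' + 0 * Xz'] ≤ K) (h1' : phi r A ![1, cR' + 1 * XR', cz' + 1 * Xz'] ≤ K)
    (hK : 0 ≤ K) (hK2 : 0 ≤ K2) (he : (2 : ℝ) ^ (2 * e * n) ≤ aR A) (hP : (2 : ℝ) ^ (2 * 1 * n) ≤ K2 * az A)
    (hM : |kR A| ≤ M) (he1 : e ≤ 1) (hn : 0 < n) :
    |XR - XR'| ≤ 2 * (54 * K + 1) * 2 ^ (-(e * n)) ∧
      |Xz - Xz'| ≤ 2 * ((54 * K * K2 + 1) + M * (54 * K + 1)) * 2 ^ (-(e * n)) := by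
  have q0 := Pd.diff hA h0' h0 (by rw [sub_self, abs_zero]; exact hr)
  have q1 := Pd.diff hA h1' h1 (by rw [sub_self, abs_zero]; exact hr)
  obtain ⟨a1, a2⟩ := dif_le hA q0 hK hK2 he hP hM he1 hn
  obtain ⟨b1, b2⟩ := dif_le hA q1 hK hK2 he hP hM he1 hn
  constructor
  · have h7 : XR - XR' = (cR + 1 * XR - (cR' + 1 * XR')) - (cR + 0 * XR - (cR' + 0 * XR')) := by ring
    rw [h7]
    refine (abs_sub _ _).trans ?_
    linarith
  · have h7 : Xz - Xz' = (cz + 1 * Xz - (cz' + 1 * Xz')) - (cz + 0 * Xz - (cz' + 0 * Xz')) := by ring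
    rw [h7]
    refine (abs_sub _ _).trans ?_
    linarith

namespace Nrm

variable {G : ∀ k, (S.F k).Ω → Matrix M4 M4 ℝ} {t cR XR cz Xz : TR S} (N : Nrm S G t cR XR cz Xz)

include N

/-- BUSH -/
theorem bush {K2 : ℕ → ℝ} (hK2 : S.Sub K2) (hT2 : Typ (fun k ω => 2 ^ (2 * (S.F k).n) ≤ K2 k * az (G k ω))) {e : ℝ}
    (he1 : e ≤ 1) (hTe : Typ (fun k ω => e ≤ lR G k ω)) : TR.dg XR e ⊔ TR.dg Xz e ≤ io G := by
  obtain ⟨M, hM, hTM⟩ := N.coef hK2 hT2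
  obtain ⟨K, hK, hT⟩ := N.ln.ln (fun _ => 1) (S.Sub_const zero_le_one)
  have hall := typ_and (typ_and hT2 hTe) (typ_and hTM hT)
  have key : ∀ᶠ k in UF, ∀ ω ω', (S.F k).μ ω ≠ 0 → (S.F k).μ ω' ≠ 0 →
      (((2 : ℝ) ^ (2 * (S.F k).n) ≤ K2 k * az (G k ω) ∧ e ≤ lR G k ω) ∧
      ((|kR (G k ω)| ≤ M k ∧ |kt (G k ω)| ≤ M k ∧ |k0 (G k ω)| ≤ M k ∧
      |TR.ev (cz + t * Xz) k ω - (k0 (G k ω) + kt (G k ω) * TR.ev t k ω +
        kR (G k ω) * TR.ev (cR + t * XR) k ω)| ≤ M k * S.dl 1 k) ∧ ∀ r, |r| ≤ (1 : ℝ) →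
      phi (S.dl 1 k) (G k ω) ![r, TR.ev cR k ω + r * TR.ev XR k ω, TR.ev cz k ω + r * TR.ev Xz k ω] ≤ K k)) →
      (∀ r, |r| ≤ (1 : ℝ) →
      phi (S.dl 1 k) (G k ω') ![r, TR.ev cR k ω' + r * TR.ev XR k ω', TR.ev cz k ω' + r * TR.ev Xz k ω'] ≤ K k) →
      G k ω = G k ω' → |TR.ev XR k ω - TR.ev XR k ω'| ≤ 2 * (54 * K k + 1) * S.dl e k ∧
        |TR.ev Xz k ω - TR.ev Xz k ω'| ≤ 2 * ((54 * K k * K2 k + 1) + M k * (54 * K k + 1)) * S.dl e k := by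
    filter_upwards [N.ln.gd, hK.1, hK2.1] with k g1 g2 g3 ω ω' h1 h2 h3 h4 h5
    rw [← h5] at h4
    have a0 := h3.2.2 0 (by rw [abs_zero]; exact zero_le_one)
    have a1 := h3.2.2 1 (by rw [abs_one])
    have b0 := h4 0 (by rw [abs_zero]; exact zero_le_one)
    have b1 := h4 1 (by rw [abs_one])
    have hn := (S.F k).pos
    have hl : (2 : ℝ) ^ (2 * e * (S.F k).n) ≤ aR (G k ω) := by
      refine le_trans ?_ (min_log hn (g1 ω h1).aR_ge).2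
      apply Real.rpow_le_rpow_of_exponent_le (by norm_num)
      apply mul_le_mul_of_nonneg_right _ hn.le
      have : e ≤ min 1 (Real.logb 2 (aR (G k ω)) / (2 * (S.F k).n)) := h3.1.2
      linarith
    have hP : (2 : ℝ) ^ (2 * 1 * (S.F k).n) ≤ K2 k * az (G k ω) := by
      rw [mul_one]
      exact h3.1.1
    exact vel_le (g1 ω h1) (S.dl_pos 1 k).le a0 a1 b0 b1 g2 g3 hl hP h3.2.1.1 he1 hn
  have s1 := S.Sub_const zero_le_one
  have s2 := S.Sub_const (by norm_num : (0 : ℝ) ≤ 2)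
  have s54 := S.Sub_const (by norm_num : (0 : ℝ) ≤ 54)
  rw [io_eq N.ln.bdd]
  apply _root_.sup_le
  · apply TR.dg_le_cl _ _ _ _ hall (fun k => 2 * (54 * K k + 1)) (s2.mul ((s54.mul hK).add s1))
    filter_upwards [key] with k hk ω ω' h1 h2 h3 h4 _ h5
    exact (hk ω ω' h1 h2 h3 h4.2.2 h5).1
  · apply TR.dg_le_cl _ _ _ _ hall (fun k => 2 * ((54 * K k * K2 k + 1) + M k * (54 * K k + 1)))
      (s2.mul ((((s54.mul hK).mul hK2).add s1).add (hM.mul ((s54.mul hK).add s1))))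
    filter_upwards [key] with k hk ω ω' h1 h2 h3 h4 _ h5
    exact (hk ω ω' h1 h2 h3 h4.2.2 h5).2

end Nrm

end

end Pool.Agent.Helper72.PLK
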