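import Pool.Agent.Helper72.PLK.Aff

/-! Forms of degree `1`: the size of a form at a point bounds its coefficients; the regular volume. -/

set_option autoImplicit false

namespace Pool.Agent.Helper72.PLK

open Finset Matrix MvPolynomial
open Pool.Agent.Helper95.LF (PdM)
open Pool.Agent.Helper3.LF Pool.Agent.Helper48.NS
open Pool.Agent.Helper89.LX (qf)

noncomputable section

theorem qf_vv (A : Matrix M4 M4 ℝ) (p : Fin (2 + 1) → ℝ) :
    (vv p : M4 → ℝ) ⬝ᵥ (A *ᵥ vv p) = qv A 1 (p 0) (p 1) (p 2) := by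
  unfold qv
  rw [← vv_cv]
  rfl

theorem phi_ge (A : Matrix M4 M4 ℝ) (hA : Gd A) (r : ℝ) (p : Fin (2 + 1) → ℝ) (j : Fin (2 + 1) → Fin (1 + 1)) :
    qv A 1 (nodp 1 p r j 0) (nodp 1 p r j 1) (nodp 1 p r j 2) ≤ phi r A p := by
  unfold phi
  rw [← qf_vv]
  exact Finset.single_le_sum (f := fun j : Fin (2 + 1) → Fin (1 + 1) =>
    (vv (nodp 1 p r j) : M4 → ℝ) ⬝ᵥ (A *ᵥ vv (nodp 1 p r j))) (fun _ _ => hA.nonneg _) (Finset.mem_univ j)

theorem nodp_zero (p : Fin (2 + 1) → ℝ) (r : ℝ) : nodp 1 p r (fun _ => 0) = p := by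
  funext i
  unfold nodp nod
  simp

theorem phi_ge_pt (A : Matrix M4 M4 ℝ) (hA : Gd A) (r : ℝ) (p : Fin (2 + 1) → ℝ) :
    qv A 1 (p 0) (p 1) (p 2) ≤ phi r A p := by
  have h1 := phi_ge A hA r p (fun _ => 0)
  rwa [nodp_zero] at h1

theorem nodp_i (p : Fin (2 + 1) → ℝ) (r : ℝ) (i k : Fin (2 + 1)) :
    nodp 1 p r (fun l => if l = i then 1 else 0) k = p k + if k = i then r / 2 else 0 := by
  unfold nodp nod
  by_cases h : k = i
  · simp only [h, if_true]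
    norm_num
    ring
  · simp [h]

/-- squares of the directions -/
theorem phi_ge_dir (A : Matrix M4 M4 ℝ) (hA : Gd A) (r : ℝ) (p : Fin (2 + 1) → ℝ) :
    r ^ 2 * qv A 0 1 0 0 ≤ 16 * phi r A p ∧ r ^ 2 * qv A 0 0 1 0 ≤ 16 * phi r A p ∧ r ^ 2 * az A ≤ 16 * phi r A p := by
  have h0 := phi_ge_pt A hA r p
  have key : ∀ y u v, qv A 1 (p 0 + r / 2 * y) (p 1 + r / 2 * u) (p 2 + r / 2 * v) ≤ phi r A p →
      r ^ 2 * qv A 0 y u v ≤ 16 * phi r A p := by
    intro y u v h1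
    have h2 := hA.qv_nonneg (1 + 1) (p 0 + r / 2 * y + p 0) (p 1 + r / 2 * u + p 1) (p 2 + r / 2 * v + p 2)
    have h3 : qv A (1 + 1) (p 0 + r / 2 * y + p 0) (p 1 + r / 2 * u + p 1) (p 2 + r / 2 * v + p 2) +
        r ^ 2 * qv A 0 y u v / 4 = 2 * qv A 1 (p 0 + r / 2 * y) (p 1 + r / 2 * u) (p 2 + r / 2 * v) +
        2 * qv A 1 (p 0) (p 1) (p 2) := by
      simp only [qv_eq hA.symm]
      ring
    linarith
  refine ⟨key 1 0 0 ?_, key 0 1 0 ?_, ?_⟩
  · have h1 := phi_ge A hA r p (fun l => if l = 0 then 1 else 0)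
    rw [nodp_i, nodp_i, nodp_i] at h1
    simp at h1
    simpa using h1
  · have h1 := phi_ge A hA r p (fun l => if l = 1 then 1 else 0)
    rw [nodp_i, nodp_i, nodp_i] at h1
    simp at h1
    simpa using h1
  · rw [az_eq]
    refine key 0 0 1 ?_
    have h1 := phi_ge A hA r p (fun l => if l = 2 then 1 else 0)
    rw [nodp_i, nodp_i, nodp_i] at h1
    simp at h1
    simpa using h1

/-- the gradients of a form of degree `1` -/
theorem Jf_one (A : Matrix M4 M4 ℝ) (r : ℝ) (p : Fin (2 + 1) → ℝ) (a b : Fin 2) :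
    Jf r A p a b = 8 * bf A (wv a.succ) (wv b.succ) := by
  rw [Jf_apply]
  have h1 : ∀ j : Fin (2 + 1) → Fin (1 + 1), (dd a.succ (nodp 1 p r j) : M4 → ℝ) ⬝ᵥ
      (A *ᵥ dd b.succ (nodp 1 p r j)) = bf A (wv a.succ) (wv b.succ) := by
    intro j
    rw [dd_const, dd_const]
    rfl
  rw [Finset.sum_congr rfl fun j _ => h1 j, Finset.sum_const, Finset.card_univ, nsmul_eq_mul]
  simp

/-- the regular volume -/
theorem GG_le (A : Matrix M4 M4 ℝ) (hA : Gd A) (r : ℝ) (p : Fin (2 + 1) → ℝ) :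
    GG r A p ≤ 81 * (az A * aR A) := by
  have h0 : bf A (wv 2) (wv 2) ≠ 0 := hA.az_pos.ne'
  have e1 : (0 : Fin 2).succ = (1 : Fin (2 + 1)) := rfl
  have e2 : (1 : Fin 2).succ = (2 : Fin (2 + 1)) := rfl
  have hd : az A * aR A = bf A (wv 1) (wv 1) * bf A (wv 2) (wv 2) - bf A (wv 1) (wv 2) ^ 2 := by
    unfold az aR
    field_simp
  have hG : GG r A p = (1 + 8 * bf A (wv 1) (wv 1)) * (1 + 8 * bf A (wv 2) (wv 2)) -
      64 * bf A (wv 1) (wv 2) ^ 2 := by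
    unfold GG
    rw [Matrix.det_fin_two]
    simp only [Matrix.add_apply, Jf_one, e1, e2, Matrix.one_apply]
    rw [bf_comm hA.symm (wv 2) (wv 1)]
    simp
    ring
  rw [hG, hd]
  -- the block is above the identity
  have h1 : ∀ u v : ℝ, u ^ 2 + v ^ 2 ≤ qv A 0 0 u v := by
    intro u v
    refine le_trans ?_ (hA.ge (cv 0 0 u v))
    have h2 := cv_mm1 0 0 u v
    have h3 := cv_mm2 0 0 u v
    unfold dotProduct
    have h4 : mm 1 ≠ mm 2 := by
      intro hc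
      have := congrArg (fun a : M4 => (a.1 1 : ℕ)) hc
      simp [mm] at this
    have h5 := Finset.sum_le_univ_sum_of_nonneg (f := fun a => cv 0 0 u v a * cv 0 0 u v a)
      (s := {mm 1, mm 2}) (fun a => mul_self_nonneg _)
    rw [Finset.sum_pair h4, h2, h3] at h5
    nlinarith
  -- determinant of the block minus the identity
  have h2 : ∀ u v : ℝ, 0 ≤ u ^ 2 * (bf A (wv 1) (wv 1) - 1) + v ^ 2 * (bf A (wv 2) (wv 2) - 1) +
      2 * (u * v * bf A (wv 1) (wv 2)) := by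
    intro u v
    have h3 := h1 u v
    rw [qv_eq hA.symm] at h3
    nlinarith
  have h3 := h2 1 0
  have h4 := h2 0 1
  have h5 : bf A (wv 1) (wv 2) ^ 2 ≤ (bf A (wv 1) (wv 1) - 1) * (bf A (wv 2) (wv 2) - 1) := by
    have h6 := h2 (bf A (wv 2) (wv 2) - 1) (-bf A (wv 1) (wv 2))
    by_cases hz : bf A (wv 2) (wv 2) - 1 = 0
    · have h7 := h2 (-bf A (wv 1) (wv 2)) ((bf A (wv 1) (wv 1) - 1 + 1) )
      rw [hz] at h7
      rw [hz, mul_zero]
      have h8 : 0 ≤ bf A (wv 1) (wv 2) ^ 2 * (bf A (wv 1) (wv 1) - 1) - 2 * (bf A (wv 1) (wv 2) ^ 2 *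
        (bf A (wv 1) (wv 1) - 1 + 1)) := by nlinarith
      nlinarith [sq_nonneg (bf A (wv 1) (wv 2))]
    · have hp : 0 < bf A (wv 2) (wv 2) - 1 := lt_of_le_of_ne (by linarith) (Ne.symm hz)
      have h7 : 0 ≤ (bf A (wv 2) (wv 2) - 1) * ((bf A (wv 1) (wv 1) - 1) * (bf A (wv 2) (wv 2) - 1) -
        bf A (wv 1) (wv 2) ^ 2) := by nlinarith
      have h8 := nonneg_of_mul_nonneg_right h7 hp
      linarith
  nlinarith

end

end Pool.Agent.Helper72.PLK
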