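import Pool.Agent.Helper72.PLK.Cnt
import Pool.Agent.Helper72.PLK.Phi
import Pool.Agent.Helper31.EC.Uns

/-! Counting the points of a space which carries a form of degree `1` that is small at the points. -/

set_option autoImplicit false

namespace Pool.Agent.Helper72.PLK

open Finset Filter Topology Matrix Pool.Agent.Helper69.RK Pool.Agent.Helper31.EC
open Pool.Agent.Helper31.EC.Sp
open Pool.Agent.Helper89.LX (qf)
open Pool.Agent.Helper3.LF (phi)

noncomputable section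

variable {S : Sp}

/-- digits of a function which varies by at most `K 2 ^ (-l n)` on the atoms of `Y` -/
theorem cnt_dg {β : ℕ → Type} {Y : ∀ k, (S.F k).Ω → β k} (hY : Bdd Y) (f : TR S) (E : ∀ k, (S.F k).Ω → Prop)
    (hE : Typ E) (K : ℕ → ℝ) (hK : S.Sub K) (l : ∀ k, (S.F k).Ω → ℝ) (hl : Bf S 1 l) (r : ℝ) (hr0 : 0 ≤ r)
    (hh : ∀ᶠ k in UF, ∀ ω ω', (S.F k).μ ω ≠ 0 → (S.F k).μ ω' ≠ 0 → E k ω → E k ω' → (S.F k).Z ω' ω → Y k ω' = Y k ω →
      |TR.ev f k ω' - TR.ev f k ω| ≤ K k * 2 ^ (-(l k ω * (S.F k).n))) :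
    h (TR.dg f r) (io Y) ≤ ex S (fun k ω => max (r - l k ω) 0) := by
  classical
  have hX : Bdd ((TR.vec (fun _ : Fin 1 => f)).cellv r) := (TR.vec (fun _ : Fin 1 => f)).bdd r
  have hf : Bf S r (fun k ω => max (r - l k ω) 0) := by
    filter_upwards [hl] with k hk ω hω
    exact ⟨le_max_right _ _, max_le (by linarith [(hk ω hω).1]) hr0⟩
  refine cnt hX hY E hE _ r hf (fun k => 2 * K k + 3) (((S.Sub_const (by norm_num : (0 : ℝ) ≤ 2)).mul hK).add
    (S.Sub_const (by norm_num : (0 : ℝ) ≤ 3))) ?_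
  filter_upwards [hh, hK.1] with k hk hK0 ω hω hEω T hT
  have hn := (S.F k).pos
  have hd := S.dl_pos r k
  -- the values are close to the value at `ω`
  have hv : ∀ a ∈ T, |(a 0 : ℝ) - ((TR.vec (fun _ : Fin 1 => f)).cellv r k ω 0 : ℝ)| ≤
      K k * 2 ^ ((r - l k ω) * (S.F k).n) + 1 := by
    intro a ha
    obtain ⟨ω', a1, a2, a3, a4, a5⟩ := hT a ha
    rw [← a5]
    have h1 := hk ω ω' hω a1 hEω a2 a3 a4
    have h2 : K k * 2 ^ (-(l k ω * (S.F k).n)) = (K k * 2 ^ ((r - l k ω) * (S.F k).n)) * S.dl r k := by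
      unfold Sp.dl
      rw [mul_assoc, ← Real.rpow_add (by norm_num)]
      congr 2
      ring
    rw [h2] at h1
    exact floor_diff hd h1
  have hpw : (2 : ℝ) ^ ((r - l k ω) * (S.F k).n) ≤ 2 ^ (max (r - l k ω) 0 * (S.F k).n) := by
    apply Real.rpow_le_rpow_of_exponent_le (by norm_num)
    exact mul_le_mul_of_nonneg_right (le_max_left _ _) hn.le
  have hpw1 : (1 : ℝ) ≤ 2 ^ (max (r - l k ω) 0 * (S.F k).n) :=
    Real.one_le_rpow (by norm_num) (mul_nonneg (le_max_right _ _) hn.le)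
  have h3 := e3_box T (2 * (K k * 2 ^ ((r - l k ω) * (S.F k).n) + 1)) (by positivity) (by
    intro a ha b hb i
    have hi : i = 0 := Subsingleton.elim _ _
    rw [hi]
    have e1 := abs_le.mp (hv a ha)
    have e2 := abs_le.mp (hv b hb)
    rw [abs_le]
    constructor <;> linarith [e1.1, e1.2, e2.1, e2.2])
  rw [pow_one] at h3
  refine h3.trans ?_
  have h4 := mul_le_mul_of_nonneg_left hpw hK0
  show _ ≤ (2 * K k + 3) * _
  nlinarith

/-- a form of degree `1` in a space, small at the points `(t, R, z)` -/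
structure Pd (S : Sp) (G : ∀ k, (S.F k).Ω → Matrix M4 M4 ℝ) (t R z : TR S) : Prop where
  bdd : Bdd G
  gd : ∀ᶠ k in UF, ∀ ω, (S.F k).μ ω ≠ 0 → Gd (G k ω)
  sm : ∃ K : ℕ → ℝ, S.Sub K ∧ Typ (fun k ω =>
    phi (S.dl 1 k) (G k ω) ![TR.ev t k ω, TR.ev R k ω, TR.ev z k ω] ≤ K k)

/-- exponent of the coefficient of `z` -/
def lz (G : ∀ k, (S.F k).Ω → Matrix M4 M4 ℝ) (k : ℕ) (ω : (S.F k).Ω) : ℝ :=
  min 1 (Real.logb 2 (az (G k ω)) / (2 * (S.F k).n))
/-- exponent of the coefficient of `R` -/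
def lR (G : ∀ k, (S.F k).Ω → Matrix M4 M4 ℝ) (k : ℕ) (ω : (S.F k).Ω) : ℝ :=
  min 1 (Real.logb 2 (aR (G k ω)) / (2 * (S.F k).n))

theorem min_log {a n : ℝ} (hn : 0 < n) (ha : 1 ≤ a) : 0 ≤ min 1 (Real.logb 2 a / (2 * n)) ∧
    (2 : ℝ) ^ (2 * min 1 (Real.logb 2 a / (2 * n)) * n) ≤ a := by
  constructor
  · exact le_min zero_le_one (div_nonneg (Real.logb_nonneg (by norm_num) ha) (by positivity))
  · have h1 : 2 * min 1 (Real.logb 2 a / (2 * n)) * n ≤ Real.logb 2 a := by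
      have h2 : min 1 (Real.logb 2 a / (2 * n)) ≤ Real.logb 2 a / (2 * n) := min_le_right _ _
      calc 2 * min 1 (Real.logb 2 a / (2 * n)) * n ≤ 2 * (Real.logb 2 a / (2 * n)) * n := by
            apply mul_le_mul_of_nonneg_right _ hn.le
            linarith
        _ = Real.logb 2 a := by field_simp
    calc (2 : ℝ) ^ (2 * min 1 (Real.logb 2 a / (2 * n)) * n) ≤ 2 ^ Real.logb 2 a :=
          Real.rpow_le_rpow_of_exponent_le (by norm_num) h1
      _ = a := Real.rpow_logb (by norm_num) (by norm_num) (by linarith)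

theorem size_of_sq {a l n d K : ℝ} (ha : (2 : ℝ) ^ (2 * l * n) ≤ a) (hK : 0 ≤ K) (h : a * d ^ 2 ≤ K) :
    |d| ≤ (K + 1) * 2 ^ (-(l * n)) := by
  have h1 : ((2 : ℝ) ^ (l * n)) ^ 2 = 2 ^ (2 * l * n) := by
    rw [← Real.rpow_natCast, ← Real.rpow_mul (by norm_num)]
    congr 1
    push_cast
    ring
  have h2 : ((2 : ℝ) ^ (l * n) * |d|) ^ 2 ≤ (K + 1) ^ 2 := by
    rw [mul_pow, h1, sq_abs]
    have := mul_le_mul_of_nonneg_right ha (sq_nonneg d)
    nlinarith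
  have h3 : (2 : ℝ) ^ (l * n) * |d| ≤ K + 1 :=
    (pow_le_pow_iff_left₀ (by positivity) (by linarith) (by norm_num)).mp h2
  have h4 : (2 : ℝ) ^ (-(l * n)) = (2 ^ (l * n))⁻¹ := Real.rpow_neg (by norm_num) _
  rw [h4, ← div_eq_mul_inv, le_div_iff₀ (by positivity), mul_comm]
  exact h3

namespace Pd

variable {G : ∀ k, (S.F k).Ω → Matrix M4 M4 ℝ} {t R z : TR S}

theorem lz_Bf (h : ∀ᶠ k in UF, ∀ ω, (S.F k).μ ω ≠ 0 → Gd (G k ω)) : Bf S 1 (lz G) := by
  filter_upwards [h] with k hk ω hω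
  exact ⟨(min_log (S.F k).pos (hk ω hω).az_ge).1, min_le_left _ _⟩

theorem lR_Bf (h : ∀ᶠ k in UF, ∀ ω, (S.F k).μ ω ≠ 0 → Gd (G k ω)) : Bf S 1 (lR G) := by
  filter_upwards [h] with k hk ω hω
  exact ⟨(min_log (S.F k).pos (hk ω hω).aR_ge).1, min_le_left _ _⟩

/-- the difference of two points -/
theorem diff {A : Matrix M4 M4 ℝ} (hA : Gd A) {d K t R z t' R' z' : ℝ} (h1 : phi d A ![t, R, z] ≤ K)
    (h2 : phi d A ![t', R', z'] ≤ K) (ht : |t' - t| ≤ d) : qv A 0 0 (R' - R) (z' - z) ≤ 54 * K := by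
  have e1 := (phi_ge_pt A hA d ![t, R, z]).trans h1
  have e2 := (phi_ge_pt A hA d ![t', R', z']).trans h2
  have e3 := (phi_ge_dir A hA d ![t, R, z]).1
  have q1 : qv A 1 t R z ≤ K := e1
  have q2 : qv A 1 t' R' z' ≤ K := e2
  have e4 : qv A 0 (t - t') 0 0 ≤ 16 * K := by
    have h3 := hA.smul (t - t') 0 1 0 0
    rw [mul_zero, mul_one] at h3
    rw [h3]
    have h4 : (t - t') ^ 2 ≤ d ^ 2 := by
      rw [← sq_abs (t - t'), abs_sub_comm]
      exact pow_le_pow_left₀ (abs_nonneg _) ht 2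
    have h5 := mul_le_mul_of_nonneg_right h4 (hA.qv_nonneg 0 1 0 0)
    linarith
  have e5 := hA.smul (-1) 1 t R z
  have e6 := hA.tri 1 t' R' z' (-1 * 1) (-1 * t) (-1 * R) (-1 * z) 0 (t - t') 0 0
  rw [e5] at e6
  have e7 : qv A (1 + -1 * 1 + 0) (t' + -1 * t + (t - t')) (R' + -1 * R + 0) (z' + -1 * z + 0) =
      qv A 0 0 (R' - R) (z' - z) := by
    congr 1 <;> ring
  rw [e7] at e6
  have e8 : 0 ≤ K := (hA.qv_nonneg 1 t R z).trans q1
  linarith

/-- the same if the second coordinates agree -/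
theorem diff' {A : Matrix M4 M4 ℝ} (hA : Gd A) {d K t R z t' R' z' : ℝ} (h1 : phi d A ![t, R, z] ≤ K)
    (h2 : phi d A ![t', R', z'] ≤ K) (ht : |t' - t| ≤ d) (hR : |R' - R| ≤ d) : az A * (z' - z) ^ 2 ≤ 210 * K := by
  have e0 := diff hA h1 h2 ht
  have e3 := (phi_ge_dir A hA d ![t, R, z]).2.1
  have e4 : qv A 0 0 (R - R') 0 ≤ 16 * K := by
    have h3 := hA.smul (R - R') 0 0 1 0
    rw [mul_zero, mul_one] at h3
    rw [h3]
    have h4 : (R - R') ^ 2 ≤ d ^ 2 := by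
      rw [← sq_abs (R - R'), abs_sub_comm]
      exact pow_le_pow_left₀ (abs_nonneg _) hR 2
    have h5 := mul_le_mul_of_nonneg_right h4 (hA.qv_nonneg 0 0 1 0)
    linarith
  have e6 := hA.tri 0 0 (R' - R) (z' - z) 0 0 (R - R') 0 0 0 0 0
  have e7 : qv A (0 + 0 + 0) (0 + 0 + 0) (R' - R + (R - R') + 0) (z' - z + 0 + 0) = qv A 0 0 0 (z' - z) := by
    congr 1 <;> ring
  rw [e7] at e6
  have e8 : qv A 0 0 0 0 = 0 := by
    rw [qv_eq hA.symm]
    ring
  rw [e8] at e6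
  have e9 : az A * (z' - z) ^ 2 = qv A 0 0 0 (z' - z) := by
    have h3 := hA.smul (z' - z) 0 0 0 1
    rw [mul_zero, mul_one] at h3
    rw [h3, az_eq]
    ring
  rw [e9]
  linarith

variable (P : Pd S G t R z)

include P

theorem Y1 : Bdd (fun k ω => (G k ω, (TR.vec (fun _ : Fin 1 => t)).cellv 1 k ω)) :=
  P.bdd.pair ((TR.vec (fun _ : Fin 1 => t)).bdd 1)

theorem io1 : io (fun k ω => (G k ω, (TR.vec (fun _ : Fin 1 => t)).cellv 1 k ω)) = io G ⊔ TR.dg t 1 :=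
  io_pair P.bdd ((TR.vec (fun _ : Fin 1 => t)).bdd 1)

/-- digits of `R` given the form and the time -/
theorem cR (r : ℝ) (hr : 0 ≤ r) : h (TR.dg R r) (io G ⊔ TR.dg t 1) ≤ ex S (fun k ω => max (r - lR G k ω) 0) := by
  obtain ⟨K, hK, hT⟩ := P.sm
  rw [← P.io1]
  apply cnt_dg P.Y1 R _ hT (fun k => 54 * K k + 1) (((S.Sub_const (by norm_num : (0 : ℝ) ≤ 54)).mul hK).add
    (S.Sub_const zero_le_one)) (lR G) (lR_Bf P.gd) r hr
  filter_upwards [P.gd, hK.1] with k hk hK0 ω ω' h1 h2 h3 h4 _ h5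
  have hG := hk ω h1
  have e1 : G k ω' = G k ω := congrArg Prod.fst h5
  have e2 := (TR.vec (fun _ : Fin 1 => t)).cellv_close 1 k ω' ω (congrArg Prod.snd h5) 0
  rw [e1] at h4
  have e3 := (hG.R_le _ _).trans (diff hG h3 h4 e2)
  exact size_of_sq (min_log (S.F k).pos hG.aR_ge).2 (by positivity) e3

/-- digits of `z` given the form, the time and `R` -/
theorem cz (r : ℝ) (hr : 0 ≤ r) :
    h (TR.dg z r) (io G ⊔ TR.dg t 1 ⊔ TR.dg R 1) ≤ ex S (fun k ω => max (r - lz G k ω) 0) := by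
  obtain ⟨K, hK, hT⟩ := P.sm
  have hY := P.Y1.pair ((TR.vec (fun _ : Fin 1 => R)).bdd 1)
  have hio : io G ⊔ TR.dg t 1 ⊔ TR.dg R 1 = io (fun k ω => ((G k ω, (TR.vec (fun _ : Fin 1 => t)).cellv 1 k ω),
      (TR.vec (fun _ : Fin 1 => R)).cellv 1 k ω)) := by
    rw [io_pair P.Y1 ((TR.vec (fun _ : Fin 1 => R)).bdd 1), P.io1]
    rfl
  rw [hio]
  apply cnt_dg hY z _ hT (fun k => 210 * K k + 1) (((S.Sub_const (by norm_num : (0 : ℝ) ≤ 210)).mul hK).add
    (S.Sub_const zero_le_one)) (lz G) (lz_Bf P.gd) r hr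
  filter_upwards [P.gd, hK.1] with k hk hK0 ω ω' h1 h2 h3 h4 _ h5
  have hG := hk ω h1
  have e0 := congrArg Prod.fst h5
  have e1 : G k ω' = G k ω := congrArg Prod.fst e0
  have e2 := (TR.vec (fun _ : Fin 1 => t)).cellv_close 1 k ω' ω (congrArg Prod.snd e0) 0
  have e3 := (TR.vec (fun _ : Fin 1 => R)).cellv_close 1 k ω' ω (congrArg Prod.snd h5) 0
  rw [e1] at h4
  exact size_of_sq (min_log (S.F k).pos hG.az_ge).2 (by positivity) (diff' hG h3 h4 e2 e3)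

/-- restriction to an event -/
theorem rest (E : ∀ k, (S.F k).Ω → Prop) (hE : 0 < ul (S.pr E)) :
    Pd (S.rest E) G (TR.rest E t) (TR.rest E R) (TR.rest E z) where
  bdd := rest_VB E P.bdd
  gd := by
    filter_upwards [P.gd] with k hk ω hω
    exact hk ω ((S.F k).rest_supp (E k) ω hω).1
  sm := by
    obtain ⟨K, hK, hT⟩ := P.sm
    exact ⟨K, hK, hT.rest E hE⟩

end Pd

end

end Pool.Agent.Helper72.PLK
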