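import Pool.Agent.Helper89.LX.Jn
import Pool.Agent.Helper59.EV.Fin
import Pool.Agent.Helper31.EC.RobS

/-! Counting with an exceptional event; expectations of bounded functions in spaces, on events and in extensions. -/

set_option autoImplicit false

namespace Pool.Agent.Helper72.PLK

open Finset Filter Topology Pool.Agent.Helper69.RK Pool.Agent.Helper31.EC
open Pool.Agent.Helper31.EC.Sp
open Pool.Agent.Helper59.EV (CH_cardv)

noncomputable section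

/-- COUNT, finite form: outside the exceptional event the atom of `ω` has at most `c ω` values, always at most `M` -/
theorem fin_cnt (F : FSp) {α : Type} (X : F.Ω → α) (B : Setoid F.Ω) (E : F.Ω → Prop) (c : F.Ω → ℝ) (M : ℝ)
    (hc : ∀ ω, F.μ ω ≠ 0 → 1 ≤ c ω)
    (h1 : ∀ ω, F.μ ω ≠ 0 → E ω → ∀ T : Finset α, (∀ a ∈ T, ∃ ω', F.μ ω' ≠ 0 ∧ E ω' ∧ B ω' ω ∧ X ω' = a) →
      (T.card : ℝ) ≤ c ω)
    (h2 : ∀ ω, F.μ ω ≠ 0 → ∀ T : Finset α, (∀ a ∈ T, ∃ ω', F.μ ω' ≠ 0 ∧ B ω' ω ∧ X ω' = a) →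
      (T.card : ℝ) ≤ M) :
    F.e (Setoid.ker X) B ≤ (∑ ω, F.μ ω * Real.logb 2 (c ω)) + Real.logb 2 M * F.pb (fun ω => ¬ E ω) + 1 := by
  classical
  have hE4 := st_E4 st_E1 st_E3
  have h0 : F.e (Setoid.ker X) B = CH F.μ X (Quotient.mk B) := by
    apply F.e_congr
    · intro ω ω' _ _
      exact Iff.rfl
    · intro ω ω' _ _
      exact Quotient.eq.symm
  rw [h0]
  have h3 := (hE4.2.1 F.Ω _ _ F.μ X (Quotient.mk B) (fun ω => ¬ E ω) F.nn).2
  rw [F.ms] at h3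
  have r1 : ∀ (D : F.Ω → Prop) (ω : F.Ω), res F.μ D ω ≠ 0 → F.μ ω ≠ 0 ∧ D ω := by
    intro D ω a
    by_cases hD : D ω
    · refine ⟨?_, hD⟩
      rwa [res_pos _ _ _ hD] at a
    · exact absurd (res_neg _ _ _ hD) a
  have h5 := CH_cardv (res F.μ (fun ω => ¬ E ω)) X (Quotient.mk B) (fun _ => M)
    (F.res_nonneg _) (by
      intro ω hω T hT
      refine h2 ω (r1 _ ω hω).1 T fun a ha => ?_
      obtain ⟨ω', a1, a2, a3⟩ := hT a ha
      exact ⟨ω', (r1 _ ω' a1).1, Quotient.exact a2, a3⟩)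
  have h6 := CH_cardv (res F.μ (fun ω => ¬ ¬ E ω)) X (Quotient.mk B) c
    (F.res_nonneg _) (by
      intro ω hω T hT
      refine h1 ω (r1 _ ω hω).1 (not_not.mp (r1 _ ω hω).2) T fun a ha => ?_
      obtain ⟨ω', a1, a2, a3⟩ := hT a ha
      exact ⟨ω', (r1 _ ω' a1).1, not_not.mp (r1 _ ω' a1).2, Quotient.exact a2, a3⟩)
  have h7 : ∑ ω, res F.μ (fun ω => ¬ E ω) ω * Real.logb 2 M = Real.logb 2 M * F.pb (fun ω => ¬ E ω) := by
    rw [← Finset.sum_mul, mul_comm]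
    rfl
  have h8 : ∑ ω, res F.μ (fun ω => ¬ ¬ E ω) ω * Real.logb 2 (c ω) ≤ ∑ ω, F.μ ω * Real.logb 2 (c ω) := by
    apply Finset.sum_le_sum
    intro ω _
    by_cases h0 : F.μ ω = 0
    · have e1 : res F.μ (fun ω => ¬ ¬ E ω) ω = 0 := by
        by_cases hD : ¬ ¬ E ω
        · rw [res_pos F.μ (fun ω => ¬ ¬ E ω) ω hD, h0]
        · rw [res_neg F.μ (fun ω => ¬ ¬ E ω) ω hD]
      rw [e1, h0]
    · have hl : 0 ≤ Real.logb 2 (c ω) := Real.logb_nonneg (by norm_num) (hc ω h0)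
      by_cases hD : ¬ ¬ E ω
      · rw [res_pos F.μ (fun ω => ¬ ¬ E ω) ω hD]
      · rw [res_neg F.μ (fun ω => ¬ ¬ E ω) ω hD, zero_mul]
        exact mul_nonneg (F.nn ω) hl
  rw [h7] at h5
  linarith

open Classical in
theorem card_le_nv (F : FSp) {α : Type} (X : F.Ω → α) (ω : F.Ω) (T : Finset α)
    (hT : ∀ a ∈ T, ∃ ω', F.μ ω' ≠ 0 ∧ F.Z ω' ω ∧ X ω' = a) : T.card ≤ nv F (Setoid.ker X) ω := by
  rw [nv_ker]
  unfold nvf
  apply Finset.card_le_card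
  intro a ha
  obtain ⟨ω', a1, a2, a3⟩ := hT a ha
  rw [Finset.mem_image]
  refine ⟨ω', ?_, a3⟩
  simp only [Finset.mem_filter, Finset.mem_univ, true_and]
  exact ⟨a1, Quotient.sound a2⟩

/-! ### expectations -/

variable {S : Sp}

/-- expectation of a function, in the limit -/
def ex (S : Sp) (f : ∀ k, (S.F k).Ω → ℝ) : ℝ := ul (fun k => ∑ ω, (S.F k).μ ω * f k ω)

/-- functions bounded on the support -/
def Bf (S : Sp) (C : ℝ) (f : ∀ k, (S.F k).Ω → ℝ) : Prop := ∀ᶠ k in UF, ∀ ω, (S.F k).μ ω ≠ 0 → 0 ≤ f k ω ∧ f k ω ≤ C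

theorem sum_le_of {F : FSp} (f g : F.Ω → ℝ) (h : ∀ ω, F.μ ω ≠ 0 → f ω ≤ g ω) :
    ∑ ω, F.μ ω * f ω ≤ ∑ ω, F.μ ω * g ω := by
  apply Finset.sum_le_sum
  intro ω _
  by_cases h0 : F.μ ω = 0
  · rw [h0, zero_mul, zero_mul]
  · exact mul_le_mul_of_nonneg_left (h ω h0) (F.nn ω)

theorem sum_const' (F : FSp) (c : ℝ) : ∑ ω, F.μ ω * c = c := by
  rw [← Finset.sum_mul]
  have : ∑ ω, F.μ ω = 1 := F.ms
  rw [this, one_mul]

theorem Bf.sum {C : ℝ} {f : ∀ k, (S.F k).Ω → ℝ} (h : Bf S C f) :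
    ∀ᶠ k in UF, 0 ≤ ∑ ω, (S.F k).μ ω * f k ω ∧ ∑ ω, (S.F k).μ ω * f k ω ≤ C := by
  filter_upwards [h] with k hk
  constructor
  · rw [← sum_const' (S.F k) 0]
    exact sum_le_of _ _ fun ω hω => (hk ω hω).1
  · rw [← sum_const' (S.F k) C]
    exact sum_le_of _ _ fun ω hω => (hk ω hω).2

theorem Bf.ub {C : ℝ} {f : ∀ k, (S.F k).Ω → ℝ} (h : Bf S C f) : UB (fun k => ∑ ω, (S.F k).μ ω * f k ω) :=
  UB_of_nonneg_le (h.sum.mono fun _ hk => hk.1) (h.sum.mono fun _ hk => hk.2)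

theorem ex_mono {C C' : ℝ} {f g : ∀ k, (S.F k).Ω → ℝ} (hf : Bf S C f) (hg : Bf S C' g)
    (h : ∀ᶠ k in UF, ∀ ω, (S.F k).μ ω ≠ 0 → f k ω ≤ g k ω) : ex S f ≤ ex S g := by
  apply ul_mono hf.ub hg.ub
  filter_upwards [h] with k hk using sum_le_of _ _ hk

theorem ex_const (S : Sp) (c : ℝ) : ex S (fun _ _ => c) = c := by
  unfold ex
  have h1 : (fun k => ∑ ω, (S.F k).μ ω * c) = fun _ => c := by
    funext k
    exact sum_const' (S.F k) c
  rw [h1, ul_const]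

theorem ex_add {C C' : ℝ} {f g : ∀ k, (S.F k).Ω → ℝ} (hf : Bf S C f) (hg : Bf S C' g) :
    ex S (fun k ω => f k ω + g k ω) = ex S f + ex S g := by
  unfold ex
  rw [← ul_add hf.ub hg.ub]
  congr 1
  funext k
  rw [← Finset.sum_add_distrib]
  exact Finset.sum_congr rfl fun ω _ => by ring

theorem ex_const_sub {C : ℝ} {f : ∀ k, (S.F k).Ω → ℝ} (hf : Bf S C f) (c : ℝ) :
    ex S (fun k ω => c - f k ω) = c - ex S f := by
  unfold ex
  have h1 : (fun k => ∑ ω, (S.F k).μ ω * (c - f k ω)) = fun k => c - ∑ ω, (S.F k).μ ω * f k ω := by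
    funext k
    have e1 : ∑ ω, (S.F k).μ ω * (c - f k ω) = ∑ ω, ((S.F k).μ ω * c - (S.F k).μ ω * f k ω) :=
      Finset.sum_congr rfl fun ω _ => by ring
    rw [e1, Finset.sum_sub_distrib, sum_const']
  rw [h1, ul_sub (UB_const c) hf.ub, ul_const]

/-- expectations in extensions -/
theorem ex_pull {T : Sp} (p : Pj T S) (f : ∀ k, (S.F k).Ω → ℝ) :
    ex T (fun k ω => f k (p.π k ω)) = ex S f := by
  unfold ex
  congr 1
  funext k
  have h1 : ∀ ω : (S.F k).Ω, (S.F k).μ ω * f k ω =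
      ∑ ω', e1_ind (p.π k ω' = ω) * ((T.F k).μ ω' * f k (p.π k ω')) := by
    intro ω
    have h2 : (S.F k).μ ω = push (p.π k) (T.F k).μ ω := (congrFun (p.law k) ω).symm
    rw [h2, push_ind, Finset.sum_mul]
    apply Finset.sum_congr rfl
    intro y _
    by_cases hy : p.π k y = ω
    · rw [hy]; ring
    · rw [e1_ind_neg hy]; ring
  rw [Finset.sum_congr rfl (fun ω _ => h1 ω), Finset.sum_comm]
  apply Finset.sum_congr rfl
  intro y _
  rw [Finset.sum_eq_single (p.π k y)]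
  · rw [e1_ind_pos rfl, one_mul]
  · intro b _ hb
    rw [e1_ind_neg (fun h => hb h.symm), zero_mul]
  · intro h
    exact absurd (Finset.mem_univ _) h

theorem Bf.pull {T : Sp} (p : Pj T S) {C : ℝ} {f : ∀ k, (S.F k).Ω → ℝ} (h : Bf S C f) :
    Bf T C (fun k ω => f k (p.π k ω)) := by
  filter_upwards [h] with k hk ω hω
  exact hk _ (p.supp k ω hω)

theorem Bf.rest (E : ∀ k, (S.F k).Ω → Prop) {C : ℝ} {f : ∀ k, (S.F k).Ω → ℝ} (h : Bf S C f) :
    Bf (S.rest E) C f := by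
  filter_upwards [h] with k hk ω hω
  exact hk _ ((S.F k).rest_supp (E k) ω hω).1

/-- splitting of an expectation over an event -/
theorem ex_split (E : ∀ k, (S.F k).Ω → Prop) {C : ℝ} {f : ∀ k, (S.F k).Ω → ℝ} (h : Bf S C f) :
    ex S f = ul (S.pr E) * ex (S.rest E) f + (1 - ul (S.pr E)) * ex (S.rest (fun k ω => ¬ E k ω)) f := by
  have b1 := (h.rest E).ub
  have b2 := (h.rest (fun k ω => ¬ E k ω)).ub
  have t1 := ((ul_tendsto (UB_pr E)).mul (ul_tendsto b1)).add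
    (((ul_tendsto (UB_pr E)).const_sub 1).mul (ul_tendsto b2))
  apply ul_eq
  refine t1.congr fun k => ?_
  have key : ∀ (D : (S.F k).Ω → Prop), (S.F k).pb D * ∑ ω, ((S.F k).rest D).μ ω * f k ω =
      ∑ ω, res (S.F k).μ D ω * f k ω := by
    intro D
    by_cases h0 : (S.F k).pb D = 0
    · rw [h0, zero_mul]
      symm
      apply Finset.sum_eq_zero
      intro ω _
      rw [(S.F k).res_zero_of_pb D h0, zero_mul]
    · rw [Finset.mul_sum]
      apply Finset.sum_congr rfl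
      intro ω _
      have e1 : ((S.F k).rest D).μ ω = ((S.F k).pb D)⁻¹ * res (S.F k).μ D ω :=
        congrFun ((S.F k).restμ_eq D h0) ω
      rw [e1]
      field_simp
  have k1 := key (E k)
  have k2 := key (fun ω => ¬ E k ω)
  have e3 : (S.F k).pb (fun ω => ¬ E k ω) = 1 - S.pr E k := pr_compl E k
  rw [e3] at k2
  have e4 : S.pr E k * ∑ ω, ((S.rest E).F k).μ ω * f k ω = ∑ ω, res (S.F k).μ (E k) ω * f k ω := k1
  have e5 : (1 - S.pr E k) * ∑ ω, ((S.rest (fun k ω => ¬ E k ω)).F k).μ ω * f k ω =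
      ∑ ω, res (S.F k).μ (fun ω => ¬ E k ω) ω * f k ω := k2
  rw [e4, e5, ← Finset.sum_add_distrib]
  apply Finset.sum_congr rfl
  intro ω _
  by_cases hE : E k ω
  · rw [res_pos _ _ _ hE, res_neg (S.F k).μ (fun ω => ¬ E k ω) ω (fun hc => hc hE), zero_mul, add_zero]
  · rw [res_neg _ _ _ hE, res_pos (S.F k).μ (fun ω => ¬ E k ω) ω hE, zero_mul, zero_add]

/-! ### counting in spaces -/

/-- COUNT: `X` has at most `K 2 ^ (f n)` values on the atoms of `Y`, typically -/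
theorem cnt {α β : ℕ → Type} {X : ∀ k, (S.F k).Ω → α k} {Y : ∀ k, (S.F k).Ω → β k} (hX : Bdd X) (hY : Bdd Y)
    (E : ∀ k, (S.F k).Ω → Prop) (hE : Typ E) (f : ∀ k, (S.F k).Ω → ℝ) (C : ℝ) (hf : Bf S C f) (K : ℕ → ℝ)
    (hK : S.Sub K)
    (hh : ∀ᶠ k in UF, ∀ ω, (S.F k).μ ω ≠ 0 → E k ω → ∀ T : Finset (α k),
      (∀ a ∈ T, ∃ ω', (S.F k).μ ω' ≠ 0 ∧ E k ω' ∧ (S.F k).Z ω' ω ∧ Y k ω' = Y k ω ∧ X k ω' = a) →
      (T.card : ℝ) ≤ K k * 2 ^ (f k ω * (S.F k).n)) :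
    h (io X) (io Y) ≤ ex S f := by
  classical
  rw [h_io hX hY]
  obtain ⟨M, hM⟩ := hX
  have hbad : Tendsto (fun k => (S.F k).pb (fun ω => ¬ E k ω)) UF (𝓝 0) := hE
  have t1 : Tendsto (fun k => (∑ ω, (S.F k).μ ω * f k ω) + Real.logb 2 (K k + 2) / (S.F k).n +
      M * (S.F k).pb (fun ω => ¬ E k ω) + 1 / (S.F k).n) UF (𝓝 (ex S f + 0 + M * 0 + 0)) :=
    (((ul_tendsto hf.ub).add hK.2).add (hbad.const_mul M)).add (S.div_n_tendsto 1)
  rw [mul_zero, add_zero, add_zero, add_zero] at t1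
  have hX' : Bdd X := ⟨M, hM⟩
  refine le_of_tendsto_of_tendsto (ul_tendsto (UB_rt hX'.toInf _)) t1 ?_
  filter_upwards [hh, hM, hK.1, hf] with k h1 h2 h3 h4
  have hn := (S.F k).pos
  have hmain := fin_cnt (S.F k) (X k) (Setoid.ker (Y k) ⊓ (S.F k).Z) (E k)
    (fun ω => (K k + 2) * 2 ^ (f k ω * (S.F k).n)) (2 ^ (M * (S.F k).n)) (by
      intro ω hω
      have e1 : (1 : ℝ) ≤ 2 ^ (f k ω * (S.F k).n) :=
        Real.one_le_rpow (by norm_num) (mul_nonneg (h4 ω hω).1 hn.le)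
      nlinarith) (by
      intro ω hω hEω T hT
      refine (h1 ω hω hEω T fun a ha => ?_).trans ?_
      · obtain ⟨ω', a1, a2, a3, a4⟩ := hT a ha
        exact ⟨ω', a1, a2, a3.2, a3.1, a4⟩
      · apply mul_le_mul_of_nonneg_right (by linarith) (by positivity)) (by
      intro ω hω T hT
      refine le_trans ?_ (h2 ω hω)
      norm_cast
      refine card_le_nv (S.F k) (X k) ω T fun a ha => ?_
      obtain ⟨ω', a1, a2, a3⟩ := hT a ha
      exact ⟨ω', a1, a2.2, a3⟩)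
  have e1 : ∑ ω, (S.F k).μ ω * Real.logb 2 ((K k + 2) * 2 ^ (f k ω * (S.F k).n)) =
      Real.logb 2 (K k + 2) + (∑ ω, (S.F k).μ ω * f k ω) * (S.F k).n := by
    have e2 : ∀ ω, (S.F k).μ ω * Real.logb 2 ((K k + 2) * 2 ^ (f k ω * (S.F k).n)) =
        (S.F k).μ ω * Real.logb 2 (K k + 2) + (S.F k).μ ω * f k ω * (S.F k).n := by
      intro ω
      rw [Real.logb_mul (by positivity) (by positivity), Real.logb_rpow (by norm_num) (by norm_num)]
      ring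
    rw [Finset.sum_congr rfl (fun ω _ => e2 ω), Finset.sum_add_distrib, sum_const', Finset.sum_mul]
  have e3 : Real.logb 2 ((2 : ℝ) ^ (M * (S.F k).n)) = M * (S.F k).n :=
    Real.logb_rpow (by norm_num) (by norm_num)
  rw [e1, e3] at hmain
  unfold Sp.rt
  rw [div_le_iff₀ hn]
  refine hmain.trans (le_of_eq ?_)
  field_simp
  ring

end

end Pool.Agent.Helper72.PLK
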