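import Pool.Agent.Helper72.PLK.Cnt
import Pool.Agent.Helper89.LX.Hth
import Pool.Agent.Helper3.LF.Adm
import Pool.Agent.Helper95.LF.RoundMat

/-! DENOISING of the canonical form: an optimal form is replaced by a comparable form with values in a net, which has
no noise: its class is known to the line and to the point. -/

set_option autoImplicit false

namespace Pool.Agent.Helper72.PLK

open Finset Filter Topology Matrix Pool.Agent.Helper69.RK Pool.Agent.Helper31.EC Pool.Agent.Helper40.EL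
open Pool.Agent.Helper31.EC.Sp
open Pool.Agent.Helper95.LF (PdM NearM round_mat)
open Pool.Agent.Helper89.LX Pool.Agent.Helper3.LF

noncomputable section

/-! ### rounding of the entries -/

section rnd

variable {ι : Type} [Fintype ι] [DecidableEq ι]

/-- the mesh of the entries -/
def mesh (ι : Type) [Fintype ι] : ℝ := (2 * ((Fintype.card ι : ℝ) + 1))⁻¹

omit [DecidableEq ι] in
theorem mesh_pos : 0 < mesh ι := by
  unfold mesh
  positivity

/-- rounded entries -/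
def rnd (N : ι → ι → ℤ) : Matrix ι ι ℝ := Matrix.of fun i j => mesh ι * (N i j : ℝ)

/-- the integers of the rounded entries -/
def ent (A : Matrix ι ι ℝ) (i j : ι) : ℤ := ⌊A i j / mesh ι⌋

omit [DecidableEq ι] in
theorem rnd_close (A : Matrix ι ι ℝ) (i j : ι) : |rnd (ent A) i j - A i j| ≤ mesh ι := by
  have hm := mesh_pos (ι := ι)
  have h1 := Int.floor_le (A i j / mesh ι)
  have h2 := Int.lt_floor_add_one (A i j / mesh ι)
  rw [le_div_iff₀ hm] at h1
  rw [div_lt_iff₀ hm] at h2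
  show |mesh ι * (⌊A i j / mesh ι⌋ : ℝ) - A i j| ≤ _
  rw [abs_le]
  constructor <;> nlinarith

omit [DecidableEq ι] in
theorem rnd_symm {A : Matrix ι ι ℝ} (hA : A.IsSymm) : (rnd (ent A)).IsSymm := by
  unfold Matrix.IsSymm
  ext i j
  show mesh ι * (⌊A j i / mesh ι⌋ : ℝ) = mesh ι * (⌊A i j / mesh ι⌋ : ℝ)
  rw [hA.apply j i]

omit [DecidableEq ι] in
theorem qf_eq_sum (A : Matrix ι ι ℝ) (x : ι → ℝ) : qf A x = ∑ i, ∑ j, x i * A i j * x j := by
  unfold qf dotProduct Matrix.mulVec dotProduct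
  apply Finset.sum_congr rfl
  intro i _
  rw [Finset.mul_sum]
  exact Finset.sum_congr rfl fun j _ => by ring

omit [DecidableEq ι] in
theorem rnd_qf (A : Matrix ι ι ℝ) (x : ι → ℝ) : |qf (rnd (ent A)) x - qf A x| ≤ 1 / 2 * (x ⬝ᵥ x) := by
  have hm := mesh_pos (ι := ι)
  have h1 : qf (rnd (ent A)) x - qf A x = ∑ i, ∑ j, x i * (rnd (ent A) i j - A i j) * x j := by
    rw [qf_eq_sum, qf_eq_sum, ← Finset.sum_sub_distrib]
    apply Finset.sum_congr rfl
    intro i _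
    rw [← Finset.sum_sub_distrib]
    exact Finset.sum_congr rfl fun j _ => by ring
  rw [h1]
  have h2 : ∀ i j, |x i * (rnd (ent A) i j - A i j) * x j| ≤ mesh ι * ((x i ^ 2 + x j ^ 2) / 2) := by
    intro i j
    rw [abs_mul, abs_mul]
    have e1 := rnd_close A i j
    have e2 : |x i| * |x j| ≤ (x i ^ 2 + x j ^ 2) / 2 := by
      have := sq_nonneg (|x i| - |x j|)
      rw [← sq_abs (x i), ← sq_abs (x j)]
      nlinarith
    have e3 : 0 ≤ |x i| * |x j| := by positivity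
    calc |x i| * |rnd (ent A) i j - A i j| * |x j| = |rnd (ent A) i j - A i j| * (|x i| * |x j|) := by ring
      _ ≤ mesh ι * ((x i ^ 2 + x j ^ 2) / 2) := mul_le_mul e1 e2 e3 hm.le
  have h3 : |∑ i, ∑ j, x i * (rnd (ent A) i j - A i j) * x j| ≤ ∑ i, ∑ j, mesh ι * ((x i ^ 2 + x j ^ 2) / 2) := by
    refine (Finset.abs_sum_le_sum_abs _ _).trans (Finset.sum_le_sum fun i _ => ?_)
    exact (Finset.abs_sum_le_sum_abs _ _).trans (Finset.sum_le_sum fun j _ => h2 i j)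
  refine h3.trans ?_
  have h4 : ∑ i, ∑ j, mesh ι * ((x i ^ 2 + x j ^ 2) / 2) = mesh ι * (Fintype.card ι * (x ⬝ᵥ x)) := by
    have e1 : ∀ i, ∑ j, mesh ι * ((x i ^ 2 + x j ^ 2) / 2) =
        mesh ι / 2 * (Fintype.card ι * x i ^ 2) + mesh ι / 2 * ∑ j, x j ^ 2 := by
      intro i
      rw [Finset.mul_sum, ← nsmul_eq_mul, ← Finset.card_univ, ← Finset.sum_const, Finset.mul_sum,
        ← Finset.sum_add_distrib]
      exact Finset.sum_congr rfl fun j _ => by ring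
    rw [Finset.sum_congr rfl fun i _ => e1 i, Finset.sum_add_distrib, Finset.sum_const, Finset.card_univ,
      nsmul_eq_mul, ← Finset.mul_sum, ← Finset.mul_sum]
    have e2 : x ⬝ᵥ x = ∑ j, x j ^ 2 := by
      unfold dotProduct
      exact Finset.sum_congr rfl fun j _ => by ring
    rw [e2]
    ring
  rw [h4]
  have h5 := dot_self_nonneg x
  have h6 : mesh ι * Fintype.card ι ≤ 1 / 2 := by
    unfold mesh
    have hc : (0 : ℝ) ≤ Fintype.card ι := Nat.cast_nonneg _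
    rw [inv_mul_le_iff₀ (by positivity)]
    linarith
  calc mesh ι * (Fintype.card ι * (x ⬝ᵥ x)) = (mesh ι * Fintype.card ι) * (x ⬝ᵥ x) := by ring
    _ ≤ 1 / 2 * (x ⬝ᵥ x) := mul_le_mul_of_nonneg_right h6 h5

omit [DecidableEq ι] in
/-- the rounded form is comparable -/
theorem rnd_comp {A : Matrix ι ι ℝ} (hA : ∀ x, x ⬝ᵥ x ≤ qf A x) (x : ι → ℝ) :
    1 / 2 * qf A x ≤ qf (rnd (ent A)) x ∧ qf (rnd (ent A)) x ≤ 3 / 2 * qf A x := by
  have h1 := abs_le.mp (rnd_qf A x)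
  have h2 := hA x
  constructor <;> linarith [h1.1, h1.2]

omit [DecidableEq ι] in
theorem rnd_pd {A : Matrix ι ι ℝ} (hs : A.IsSymm) (hA : ∀ x, x ⬝ᵥ x ≤ qf A x) : PdM (rnd (ent A)) := by
  refine ⟨rnd_symm hs, fun x hx => ?_⟩
  have h1 := (rnd_comp hA x).1
  have h2 := hA x
  have h3 := dot_self_pos hx
  show 0 < qf (rnd (ent A)) x
  linarith

/-- entries of a form below the cap -/
theorem ent_bd {c : ℝ} {A : Matrix ι ι ℝ} (hA : Cpd c A) (i j : ι) : |A i j| ≤ 2 * c := by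
  classical
  have hc : 0 ≤ c := by
    have h1 := hA.2.1 (Pi.single i 1)
    have h2 := hA.2.2 (Pi.single i 1)
    have h3 : (Pi.single i (1 : ℝ) : ι → ℝ) ⬝ᵥ Pi.single i 1 = 1 := by simp
    rw [h3] at h1 h2
    linarith
  have hd : ∀ i, qf A (Pi.single i 1) = A i i := by
    intro i
    unfold qf
    simp
  have hij : ∀ s : ℝ, qf A (Pi.single i 1 + s • Pi.single j 1) = A i i + s * (2 * A i j) + s ^ 2 * A j j := by
    intro s
    unfold qf
    rw [Matrix.mulVec_add, Matrix.mulVec_smul, add_dotProduct, dotProduct_add, dotProduct_add, smul_dotProduct,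
      smul_dotProduct, dotProduct_smul, dotProduct_smul]
    have e1 := hA.1.apply i j
    simp only [smul_eq_mul, Matrix.mulVec_single_one, single_one_dotProduct, Matrix.col_apply]
    rw [e1]
    ring
  have hn : ∀ s : ℝ, s ^ 2 = 1 → (Pi.single i (1 : ℝ) + s • Pi.single j 1 : ι → ℝ) ⬝ᵥ
      (Pi.single i 1 + s • Pi.single j 1) ≤ 4 := by
    intro s hs
    rw [add_dotProduct, dotProduct_add, dotProduct_add, smul_dotProduct, smul_dotProduct, dotProduct_smul,
      dotProduct_smul]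
    simp only [smul_eq_mul, single_one_dotProduct, Pi.single_apply]
    have hs1 : s ≤ 1 := by nlinarith
    have hs2 : -1 ≤ s := by nlinarith
    by_cases hq : i = j
    · subst hq
      simp only [if_true]
      nlinarith
    · have hq' : ¬ j = i := fun h => hq h.symm
      simp only [if_true, hq, hq', if_false]
      nlinarith
  have h1 := hA.2.2 (Pi.single i 1 + (1 : ℝ) • Pi.single j 1)
  have h2 := hA.2.2 (Pi.single i 1 + (-1 : ℝ) • Pi.single j 1)
  have h3 := hn 1 (by norm_num)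
  have h4 := hn (-1) (by norm_num)
  rw [hij] at h1 h2
  have h5 := hA.2.1 (Pi.single i 1)
  have h6 := hA.2.1 (Pi.single j 1)
  rw [hd] at h5 h6
  have h7 := dot_self_nonneg (Pi.single i (1 : ℝ) : ι → ℝ)
  have h8 := dot_self_nonneg (Pi.single j (1 : ℝ) : ι → ℝ)
  have h9 := mul_le_mul_of_nonneg_left h3 hc
  have h10 := mul_le_mul_of_nonneg_left h4 hc
  rw [abs_le]
  constructor <;> nlinarith

end rnd

/-! ### two copies of an optimal form -/

section two

variable {S : Sp} {ι : Type} [Fintype ι] [DecidableEq ι] (Φ : Gau S ι)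

theorem Ad_swap {A B : Part S} {x : ∀ k, FD (S.F k) ι} (hx : Φ.Ad A B x) : Φ.Ad A B (fun k => (x k).swap) :=
  fun η hη => (hx η hη).mono fun _ hk =>
    ⟨hk.1, hk.2.1, fun ω h => ⟨(hk.2.2.1 ω h).2, (hk.2.2.1 ω h).1⟩, hk.2.2.2.2, hk.2.2.2.1⟩

theorem opt_dom' {A B : Part S} {x : ∀ k, FD (S.F k) ι} (hx : Φ.Opt A B x) (e : ℝ) (he : 0 < e) :
    Tendsto (fun k => ((x k).jj (x k)).l.T.pb (fun w =>
      ¬ ∀ v, qf (((x k).jj (x k)).g w) v ≤ 2 ^ (e * (S.F k).n) * qf (((x k).jj (x k)).g' w) v)) UF (𝓝 0) := by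
  refine Φ.opt_near (x := fun k => ((x k).jj (x k)).swap) (Ad_swap Φ (Gau.Ad.jj Φ hx.1 hx.1)) ?_ e he
  intro z hz
  have h1 : (fun k => (((x k).jj (x k)).swap).sc / (S.F k).n) = fun k => (x k).sc / (S.F k).n := by
    funext k
    have h2 : (((x k).jj (x k)).swap).sc = (x k).sc :=
      sum_push ((x k).l.am (x k).l).p2 (fun ω => Real.logb 2 ((x k).g ω).det)
    rw [h2]
  rw [h1]
  exact hx.2 z hz

/-- the space of two copies -/
def jL (x : ∀ k, FD (S.F k) ι) : Lab S := fun k => ((x k).jj (x k)).l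

/-- two copies of an optimal form are comparable -/
theorem two_near {A B : Part S} {x : ∀ k, FD (S.F k) ι} (hx : Φ.Opt A B x) :
    ∃ e : ℕ → ℝ, Tendsto e UF (𝓝 0) ∧ (∀ k, 0 < e k) ∧ Sp.Typ (S := (jL x).sp) (fun k (w : (x k).l.T.Ω × (x k).l.T.Ω) =>
      (∀ v, qf ((x k).g w.2) v ≤ 2 ^ (e k * (S.F k).n) * qf ((x k).g w.1) v) ∧
      ∀ v, qf ((x k).g w.1) v ≤ 2 ^ (e k * (S.F k).n) * qf ((x k).g w.2) v) := by
  obtain ⟨e, h1, h2, h3⟩ := typ_diag (S := (jL x).sp) (fun e k (w : (x k).l.T.Ω × (x k).l.T.Ω) =>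
      (∀ v, qf ((x k).g w.2) v ≤ 2 ^ (e * (S.F k).n) * qf ((x k).g w.1) v) ∧
      ∀ v, qf ((x k).g w.1) v ≤ 2 ^ (e * (S.F k).n) * qf ((x k).g w.2) v) (by
    intro e he
    exact typ_and (S := (jL x).sp) (Gau.Opt.dom Φ hx hx.1 e he) (opt_dom' Φ hx e he))
  exact ⟨e, h1, h2, h3⟩

/-- no noise in a function of the form with few values on comparable forms, finite form -/
theorem fin_noise {F : FSp} (l : FLab F) {α : Type} (G : l.T.Ω → α) (Ev : l.T.Ω × l.T.Ω → Prop) (N : ℕ) (M : ℝ)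
    (hN : ∀ w : l.T.Ω × l.T.Ω, l.T.μ w.1 ≠ 0 → l.T.μ w.2 ≠ 0 → Ev w → ∀ T : Finset α,
      (∀ a ∈ T, ∃ w' : l.T.Ω × l.T.Ω, l.T.μ w'.1 ≠ 0 ∧ l.T.μ w'.2 ≠ 0 ∧ Ev w' ∧ l.V w'.1 w.1 ∧ l.T.Z w'.1 w.1 ∧
        G w'.2 = a) → T.card ≤ N)
    (hM : ∀ ω, l.T.μ ω ≠ 0 → ∀ T : Finset α, (∀ a ∈ T, ∃ ω', l.T.μ ω' ≠ 0 ∧ l.T.Z ω' ω ∧ G ω' = a) →
      (T.card : ℝ) ≤ M) :
    h (fc (Setoid.ker G) : FL l.T) l.p.top ≤ Real.logb 2 (N + 1) + Real.logb 2 M * (l.am l).sp.pb (fun w => ¬ Ev w) + 1 := by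
  have h1 : h (fc (Setoid.ker G) : FL l.T) l.p.top =
      h ((l.am l).p2.map (fc (Setoid.ker G))) ((l.am l).p1.map l.p.top) := by
    rw [l.am_top l, (l.am l).p2.h_map]
  have h2 : I ((l.am l).p1.map l.v) ((l.am l).p2.map (fc (Setoid.ker G))) ((l.am l).p1.map l.p.top) = 0 :=
    l.am_indep l _ _
  rw [I_comm, I_zero_iff_h] at h2
  have h3 : h ((l.am l).p2.map (fc (Setoid.ker G))) ((l.am l).p1.map l.p.top) ≤
      h ((l.am l).p2.map (fc (Setoid.ker G))) ((l.am l).p1.map l.v) := by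
    rw [← h2]
    exact h_anti le_sup_left
  rw [h1]
  refine h3.trans ?_
  have h4 : h ((l.am l).p2.map (fc (Setoid.ker G))) ((l.am l).p1.map l.v) =
      (l.am l).sp.e (Setoid.ker (fun w => G w.2)) (Setoid.comap (l.am l).p1.π l.V ⊓ (l.am l).sp.Z) := h_fc _ _
  rw [h4]
  have h5 := fin_cnt (l.am l).sp (fun w => G w.2) (Setoid.comap (l.am l).p1.π l.V ⊓ (l.am l).sp.Z) Ev
    (fun _ => (N : ℝ) + 1) M (fun _ _ => by
      have : (0 : ℝ) ≤ N := Nat.cast_nonneg N
      linarith) (by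
      intro w hw hE T hT
      obtain ⟨_, s1, s2⟩ := (l.am l).supp w hw
      have h6 := hN w s1 s2 hE T (fun a ha => by
        obtain ⟨w', a1, a2, a3, a4⟩ := hT a ha
        obtain ⟨_, s1', s2'⟩ := (l.am l).supp w' a1
        exact ⟨w', s1', s2', a2, a3.1, a3.2, a4⟩)
      have h7 : (T.card : ℝ) ≤ N := by exact_mod_cast h6
      linarith) (by
      intro w hw T hT
      obtain ⟨_, s1, s2⟩ := (l.am l).supp w hw
      refine hM w.2 s2 T fun a ha => ?_
      obtain ⟨w', a1, a3, a4⟩ := hT a ha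
      obtain ⟨_, s1', s2'⟩ := (l.am l).supp w' a1
      exact ⟨w'.2, s2', ((l.am l).p2.hZ w' w a1 hw).mp a3.2, a4⟩)
  rw [sum_const'] at h5
  exact h5

omit [DecidableEq ι] in
theorem near_of {L c : ℝ} {A1 A2 : Matrix ι ι ℝ} (h1 : ∀ x, x ⬝ᵥ x ≤ qf A1 x) (h2 : ∀ x, x ⬝ᵥ x ≤ qf A2 x)
    (hc : 0 ≤ c) (hL : 3 * c ≤ Real.exp L) (h : ∀ v, qf A1 v ≤ c * qf A2 v) (h' : ∀ v, qf A2 v ≤ c * qf A1 v) :
    NearM L (rnd (ent A1)) (rnd (ent A2)) := by
  have key : ∀ {A1 A2 : Matrix ι ι ℝ}, (∀ x, x ⬝ᵥ x ≤ qf A1 x) → (∀ x, x ⬝ᵥ x ≤ qf A2 x) →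
      (∀ v, qf A1 v ≤ c * qf A2 v) → ∀ v, qf (rnd (ent A1)) v ≤ Real.exp L * qf (rnd (ent A2)) v := by
    intro A1 A2 h1 h2 h v
    have e1 := (rnd_comp h1 v).2
    have e2 := (rnd_comp h2 v).1
    have e3 := h v
    have e4 := (dot_self_nonneg v).trans (h2 v)
    have e5 : c * qf A2 v ≤ c * (2 * qf (rnd (ent A2)) v) := mul_le_mul_of_nonneg_left (by linarith) hc
    have e6 : 0 ≤ qf (rnd (ent A2)) v := by linarith
    have e7 := mul_le_mul_of_nonneg_right hL e6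
    nlinarith
  exact ⟨key h1 h2 h, key h2 h1 h'⟩

/-- DENOISING -/
theorem denoise {A B : Part S} {x : ∀ k, FD (S.F k) ι} (hx : Φ.Opt A B x) :
    ∃ (G : ∀ k, (x k).l.T.Ω → Matrix ι ι ℝ) (κ : ℕ → ℝ), S.Sub κ ∧ (∀ k, 1 ≤ κ k) ∧
      Bdd (S := (lb x).sp) G ∧
      (∀ k ω ω', (x k).l.T.μ ω ≠ 0 → (x k).l.T.μ ω' ≠ 0 → (x k).l.V ω ω' → (x k).l.T.Z ω ω' → G k ω = G k ω') ∧
      (∀ᶠ k in UF, ∀ ω, (x k).l.T.μ ω ≠ 0 → (G k ω).IsSymm ∧
        (∀ v, qf ((x k).g ω) v ≤ qf (G k ω) v) ∧ ∀ v, qf (G k ω) v ≤ κ k * qf ((x k).g ω) v) ∧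
      Nul S (fun k => h (fc (Setoid.ker (G k)) : FL (x k).l.T) (x k).l.p.top) := by
  classical
  obtain ⟨C, N, hC, hN⟩ := round_mat ι
  obtain ⟨e, he, he0, hT⟩ := two_near Φ hx
  have hL1 : ∀ k, (1 : ℝ) ≤ 3 + e k * (S.F k).n * Real.log 2 := by
    intro k
    have := mul_nonneg (mul_nonneg (he0 k).le (S.F k).pos.le) (Real.log_nonneg (by norm_num : (1 : ℝ) ≤ 2))
    linarith
  choose Q hQ1 hQ2 using fun k => hN (3 + e k * (S.F k).n * Real.log 2) (hL1 k)
  obtain ⟨L, hL⟩ : ∃ L : ℕ → ℝ, L = fun k => 3 + e k * (S.F k).n * Real.log 2 := ⟨_, rfl⟩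
  have hLk : ∀ k, 3 + e k * (S.F k).n * Real.log 2 = L k := fun k => (congrFun hL k).symm
  simp only [hLk] at hQ1 hQ2 hL1
  have hexp : ∀ k, Real.exp (L k) = Real.exp 3 * 2 ^ (e k * (S.F k).n) := by
    intro k
    rw [← hLk, Real.exp_add, Real.rpow_def_of_pos (by norm_num : (0 : ℝ) < 2)]
    congr 2
    ring
  have hexp3 : (3 : ℝ) ≤ Real.exp 3 := by
    have := Real.add_one_le_exp (3 : ℝ)
    linarith
  obtain ⟨c, hc⟩ : ∃ c : ℕ → ℝ, c = fun k => 2 * Real.exp (C * L k) := ⟨_, rfl⟩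
  have hcpos : ∀ k, 0 < c k := fun k => by rw [hc]; positivity
  obtain ⟨G, hG⟩ : ∃ G : ∀ k, (x k).l.T.Ω → Matrix ι ι ℝ, G = fun k ω => c k • Q k (rnd (ent ((x k).g ω))) := ⟨_, rfl⟩
  have hGk : ∀ k ω, G k ω = c k • Q k (rnd (ent ((x k).g ω))) := fun k ω => by rw [hG]
  have hqG : ∀ k ω v, qf (G k ω) v = c k * qf (Q k (rnd (ent ((x k).g ω)))) v := by
    intro k ω v
    rw [hGk]
    unfold qf
    rw [Matrix.smul_mulVec, dotProduct_smul, smul_eq_mul]
  -- boundedness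
  have hBdd : Bdd (S := (lb x).sp) G := by
    set E : ι × ι ≃ Fin (Fintype.card (ι × ι)) := Fintype.equivFin _ with hE
    have h1 : Bdd (S := (lb x).sp) (fun k (ω : (x k).l.T.Ω) => fun a : Fin (Fintype.card (ι × ι)) =>
        ent ((x k).g ω) (E.symm a).1 (E.symm a).2) := by
      have hm := mesh_pos (ι := ι)
      apply Bdd_int (S := (lb x).sp) _ (fun k => 2 * Φ.cp k / mesh ι + 1) (Φ.C + 2)
      · filter_upwards [hx.1 1 one_pos] with k hk ω hω a
        have h2 := ent_bd (hk.2.2.1 ω hω).1 (E.symm a).1 (E.symm a).2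
        have h3 := rnd_close ((x k).g ω) (E.symm a).1 (E.symm a).2
        have h4 : |mesh ι * (ent ((x k).g ω) (E.symm a).1 (E.symm a).2 : ℝ)| ≤ 2 * Φ.cp k + mesh ι := by
          have h5 := abs_sub_abs_le_abs_sub (rnd (ent ((x k).g ω)) (E.symm a).1 (E.symm a).2)
            ((x k).g ω (E.symm a).1 (E.symm a).2)
          have h6 : |mesh ι * (ent ((x k).g ω) (E.symm a).1 (E.symm a).2 : ℝ)| =
            |rnd (ent ((x k).g ω)) (E.symm a).1 (E.symm a).2| := rfl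
          rw [h6]
          linarith
        rw [abs_mul, abs_of_pos hm] at h4
        have h7 : |((ent ((x k).g ω) (E.symm a).1 (E.symm a).2 : ℤ) : ℝ)| ≤ (2 * Φ.cp k + mesh ι) / mesh ι := by
          rw [le_div_iff₀ hm, mul_comm]
          exact h4
        refine h7.trans (le_of_eq ?_)
        rw [add_div, div_self hm.ne']
      · have h2 : ∀ᶠ k in UF, 4 / mesh ι + 3 ≤ (2 : ℝ) ^ (S.F k).n := by
          have h3 : Tendsto (fun k => (2 : ℝ) ^ (S.F k).n) UF atTop :=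
            (tendsto_rpow_atTop_of_base_gt_one 2 (by norm_num)).comp S.lim
          exact h3.eventually (eventually_ge_atTop _)
        filter_upwards [h2] with k hk
        have hcp := Φ.one_le_cp k
        have h3 : ((lb x).sp.F k).n = (S.F k).n := sp_n (lb x) k
        rw [h3]
        have h4 : (2 : ℝ) ^ ((Φ.C + 2) * (S.F k).n) = Φ.cp k * 2 ^ (S.F k).n := by
          unfold Gau.cp
          rw [← Real.rpow_add (by norm_num)]
          congr 1
          ring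
        rw [h4]
        have h5 : 0 < 4 / mesh ι := by positivity
        calc 2 * (2 * Φ.cp k / mesh ι + 1) + 1 = 4 / mesh ι * Φ.cp k + 3 := by ring
          _ ≤ (4 / mesh ι + 3) * Φ.cp k := by nlinarith
          _ ≤ 2 ^ (S.F k).n * Φ.cp k := mul_le_mul_of_nonneg_right hk (by linarith)
          _ = _ := mul_comm _ _
    have h2 := Bdd.comp h1 (fun k (N : Fin (Fintype.card (ι × ι)) → ℤ) =>
      c k • Q k (rnd (fun i j => N (E (i, j)))))
    have h3 : G = fun k (ω : (x k).l.T.Ω) => c k • Q k (rnd (fun i j =>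
        ent ((x k).g ω) (E.symm (E (i, j))).1 (E.symm (E (i, j))).2)) := by
      funext k ω
      rw [hGk]
      simp only [Equiv.symm_apply_apply]
    rw [h3]
    exact h2
  have hmeas : ∀ k ω ω', (x k).l.T.μ ω ≠ 0 → (x k).l.T.μ ω' ≠ 0 → (x k).l.V ω ω' → (x k).l.T.Z ω ω' →
      G k ω = G k ω' := by
    intro k ω ω' a b v z
    rw [hGk, hGk, ((x k).meas ω ω' a b v z).1]
  refine ⟨G, fun k => 3 * Real.exp (C * L k) ^ 2, ?_, ?_, hBdd, hmeas, ?_, ?_⟩
  · have h1 : Tendsto (fun k => 2 * C * e k) UF (𝓝 0) := by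
      have := he.const_mul (2 * C)
      rwa [mul_zero] at this
    have h2 := (S.Sub_const (show (0 : ℝ) ≤ 3 * Real.exp (6 * C) by positivity)).mul (Sub_pow_two h1
      (Eventually.of_forall fun k => mul_nonneg (by linarith) (he0 k).le))
    refine h2.mono (Eventually.of_forall fun k => by positivity) (Eventually.of_forall fun k => le_of_eq ?_)
    have e1 : Real.exp (C * L k) ^ 2 = Real.exp (6 * C) * 2 ^ (2 * C * e k * (S.F k).n) := by
      rw [← hLk, ← Real.exp_nat_mul, Real.rpow_def_of_pos (by norm_num : (0 : ℝ) < 2), ← Real.exp_add]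
      congr 1
      push_cast
      ring
    rw [e1]
    ring
  · intro k
    have h1 : 1 ≤ Real.exp (C * L k) := Real.one_le_exp (mul_nonneg (by linarith) (by linarith [hL1 k]))
    nlinarith
  · filter_upwards [hx.1 1 one_pos] with k hk ω hω
    have c1 := (hk.2.2.1 ω hω).1
    obtain ⟨q1, q2⟩ := hQ1 k _ (rnd_pd c1.1 c1.2.1)
    have hex : 0 < Real.exp (C * L k) := Real.exp_pos _
    refine ⟨?_, fun v => ?_, fun v => ?_⟩
    · rw [hGk]
      exact q1.1.smul (c k)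
    · rw [hqG, hc]
      have e1 : qf (rnd (ent ((x k).g ω))) v ≤ Real.exp (C * L k) * qf (Q k (rnd (ent ((x k).g ω)))) v := q2.1 v
      have e2 := (rnd_comp c1.2.1 v).1
      show _ ≤ 2 * Real.exp (C * L k) * _
      nlinarith
    · rw [hqG, hc]
      have e1 : qf (Q k (rnd (ent ((x k).g ω)))) v ≤ Real.exp (C * L k) * qf (rnd (ent ((x k).g ω))) v := q2.2 v
      have e2 := (rnd_comp c1.2.1 v).2
      have e3 : Real.exp (C * L k) * qf (rnd (ent ((x k).g ω))) v ≤ Real.exp (C * L k) * (3 / 2 * qf ((x k).g ω) v) :=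
        mul_le_mul_of_nonneg_left e2 hex.le
      have e4 := mul_le_mul_of_nonneg_left (e1.trans e3) (show 0 ≤ 2 * Real.exp (C * L k) by positivity)
      refine e4.trans (le_of_eq ?_)
      ring
  · obtain ⟨M, hM⟩ := hBdd
    have hbad : Tendsto (fun k => ((x k).l.am (x k).l).sp.pb (fun w =>
      ¬ ((∀ v, qf ((x k).g w.2) v ≤ 2 ^ (e k * (S.F k).n) * qf ((x k).g w.1) v) ∧
      ∀ v, qf ((x k).g w.1) v ≤ 2 ^ (e k * (S.F k).n) * qf ((x k).g w.2) v))) UF (𝓝 0) := hT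
    have hlim : Tendsto (fun k => Real.logb 2 (N + 1) / (S.F k).n + M * ((x k).l.am (x k).l).sp.pb (fun w =>
      ¬ ((∀ v, qf ((x k).g w.2) v ≤ 2 ^ (e k * (S.F k).n) * qf ((x k).g w.1) v) ∧
      ∀ v, qf ((x k).g w.1) v ≤ 2 ^ (e k * (S.F k).n) * qf ((x k).g w.2) v)) + 1 / (S.F k).n) UF (𝓝 0) := by
      have h1 := ((S.div_n_tendsto (Real.logb 2 (N + 1))).add (hbad.const_mul M)).add (S.div_n_tendsto 1)
      rw [mul_zero, add_zero, add_zero] at h1
      exact h1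
    refine squeeze_zero' (Eventually.of_forall fun k => div_nonneg (h_nonneg _ _) (S.F k).pos.le) ?_ hlim
    filter_upwards [hM, hx.1 1 one_pos] with k hk hk2
    have hn := (S.F k).pos
    have hfin := fin_noise (x k).l (G k) (fun w =>
      (∀ v, qf ((x k).g w.2) v ≤ 2 ^ (e k * (S.F k).n) * qf ((x k).g w.1) v) ∧
      ∀ v, qf ((x k).g w.1) v ≤ 2 ^ (e k * (S.F k).n) * qf ((x k).g w.2) v) N (2 ^ (M * (S.F k).n)) (by
        intro w s1 s2 hE T hT
        have c1 := (hk2.2.2.1 w.1 s1).1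
        obtain ⟨Sf, hS1, hS2⟩ := hQ2 k (rnd (ent ((x k).g w.1))) (rnd_pd c1.1 c1.2.1)
        have hsub : T ⊆ Sf.image (fun A => c k • A) := by
          intro a ha
          obtain ⟨w', a1, a2, a3, a4, a5, a6⟩ := hT a ha
          have c2 := (hk2.2.2.1 w'.2 a2).1
          rw [Finset.mem_image]
          refine ⟨Q k (rnd (ent ((x k).g w'.2))), hS2 _ (rnd_pd c2.1 c2.2.1) ?_, ?_⟩
          · have e1 : (x k).g w'.1 = (x k).g w.1 := ((x k).meas w'.1 w.1 a1 s1 a4 a5).1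
            have a3' := a3
            rw [e1] at a3'
            refine near_of (c := 2 ^ (e k * (S.F k).n)) c1.2.1 c2.2.1 (by positivity) ?_ a3'.2 a3'.1
            rw [hexp]
            exact mul_le_mul_of_nonneg_right hexp3 (by positivity)
          · rw [← a6, hGk]
        exact ((Finset.card_le_card hsub).trans Finset.card_image_le).trans hS1) (by
        intro ω hω T hT
        have h1 := hk ω hω
        have h2 : ((lb x).sp.F k).n = (S.F k).n := sp_n (lb x) k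
        rw [h2] at h1
        refine le_trans ?_ h1
        norm_cast
        exact card_le_nv (x k).l.T (G k) ω T hT)
    rw [Real.logb_rpow (by norm_num) (by norm_num)] at hfin
    rw [div_le_iff₀ hn]
    refine hfin.trans (le_of_eq ?_)
    field_simp

end two

end

end Pool.Agent.Helper72.PLK
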