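import Pool.Agent.Helper72.PLK.Bush

/-! Fullness of the second coordinate over the planes beyond the level of its exponent; comparison with the points of
the lines at other times; the package of a system in coordinates. -/

set_option autoImplicit false

namespace Pool.Agent.Helper72.PLK

open Finset Filter Topology Matrix Pool.Agent.Helper69.RK Pool.Agent.Helper31.EC
open Pool.Agent.Helper31.EC.Sp
open Pool.Agent.Helper89.LX (qf)
open Pool.Agent.Helper3.LF (phi typ_mono typ_and typ_sub_ge pl)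

noncomputable section

variable {S : Sp}

theorem tr_h_dg_dg (f : TR S) {r s : ℝ} (hrs : r ≤ s) : h (TR.dg f s) (TR.dg f r) ≤ s - r := by
  have h1 := (TR.vec fun _ : Fin 1 => f).h_dg_dg hrs
  rw [Nat.cast_one, one_mul] at h1
  exact h1

theorem max_le_sub' {e : ℝ} (he : 0 ≤ e) {f : ∀ k, (S.F k).Ω → ℝ} (hf : Bf S 1 f)
    (hlt : ∀ᶠ k in UF, ∀ ω, (S.F k).μ ω ≠ 0 → f k ω ≤ e) :
    ex S (fun k ω => max (e - f k ω) 0) ≤ e - ex S f := by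
  rw [← ex_const_sub hf]
  have h1 : Bf S e (fun k ω => max (e - f k ω) 0) := by
    filter_upwards [hf] with k hk ω hω
    exact ⟨le_max_right _ _, max_le (by linarith [(hk ω hω).1]) he⟩
  have h2 : Bf S e (fun k ω => e - f k ω) := by
    filter_upwards [hf, hlt] with k hk hk2 ω hω
    exact ⟨by linarith [hk2 ω hω], by linarith [(hk ω hω).1]⟩
  apply ex_mono h1 h2
  filter_upwards [hlt] with k hk ω hω
  exact max_le le_rfl (by linarith [hk ω hω])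

namespace Nrm

variable {G : ∀ k, (S.F k).Ω → Matrix M4 M4 ℝ} {t cR XR cz Xz : TR S} (N : Nrm S G t cR XR cz Xz)

include N

/-- digits of the points of extensions -/
theorem cmp {e : ℝ} (he : 0 ≤ e) (hlt : ∀ᶠ k in UF, ∀ ω, (S.F k).μ ω ≠ 0 → lR G k ω ≤ e) {D : Sp} (q : Pj D S)
    (τ : TR D) : h (TR.dg (q.tr cR + τ * q.tr XR) e) (q.map (io G) ⊔ TR.dg τ 1) ≤ e - ex S (lR G) := by
  have h1 := ((N.ln.pull q).pd τ).cR e he
  rw [← q.map_io G] at h1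
  refine h1.trans ?_
  have h2 : lR (S := D) (fun k ω => G k (q.π k ω)) = fun k ω => lR G k (q.π k ω) := by
    funext k ω
    unfold lR
    rw [q.hn k]
  rw [h2, ← ex_pull q (lR G)]
  apply max_le_sub' he
  · exact N.bR.pull q
  · filter_upwards [hlt] with k hk ω hω
    exact hk _ (q.supp k ω hω)

theorem e_le {e : ℝ} (he : 0 ≤ e) (hlt : ∀ᶠ k in UF, ∀ ω, (S.F k).μ ω ≠ 0 → lR G k ω ≤ e) :
    h (TR.dg (cR + t * XR) e) (io G ⊔ TR.dg t 1) ≤ e - ex S (lR G) :=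
  ((N.ln.pd t).cR e he).trans (max_le_sub' he N.bR hlt)

omit N in
theorem split_e (A : S.L) (f : TR S) {e : ℝ} (he1 : e ≤ 1) :
    h (TR.dg f 1) A = h (TR.dg f e) A + h (TR.dg f 1) (TR.dg f e ⊔ A) := by
  have h1 := h_chain (TR.dg f e) (TR.dg f 1) A
  rw [sup_eq_right.mpr (TR.dg_mono f he1)] at h1
  exact h1

/-- fullness beyond the exponent -/
theorem full_e {e : ℝ} (he : 0 ≤ e) (he1 : e ≤ 1) (hlt : ∀ᶠ k in UF, ∀ ω, (S.F k).μ ω ≠ 0 → lR G k ω ≤ e) :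
    1 - e ≤ h (TR.dg (cR + t * XR) 1) (io G ⊔ (TR.dg (cR + t * XR) e ⊔ TR.dg t 1)) := by
  have h1 := N.R_ge
  have h2 := N.e_le he hlt
  rw [split_e _ _ he1] at h1
  have h3 : TR.dg (cR + t * XR) e ⊔ (io G ⊔ TR.dg t 1) = io G ⊔ (TR.dg (cR + t * XR) e ⊔ TR.dg t 1) := sup_left_comm _ _ _
  rw [h3] at h1
  linarith

/-- the digits below the level are also full -/
theorem e_ge {e : ℝ} (he1 : e ≤ 1) : e - ex S (lR G) ≤ h (TR.dg (cR + t * XR) e) (io G ⊔ TR.dg t 1) := by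
  have h1 := N.R_ge
  rw [split_e _ _ he1] at h1
  have h2 : h (TR.dg (cR + t * XR) 1) (TR.dg (cR + t * XR) e ⊔ (io G ⊔ TR.dg t 1)) ≤ 1 - e :=
    (h_anti le_sup_left).trans (tr_h_dg_dg _ he1)
  linarith

end Nrm

/-- digits of two functions -/
theorem two_dg (f g : TR S) (r : ℝ) : (TR.vec ![f, g]).dg r = TR.dg f r ⊔ TR.dg g r := by
  apply le_antisymm
  · apply TR.vec_dg_le
    intro i
    fin_cases i
    · exact le_sup_left
    · exact le_sup_right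
  · exact sup_le (TR.cor_dg_le (TR.vec ![f, g]) 0 r) (TR.cor_dg_le (TR.vec ![f, g]) 1 r)

/-- the system of two families of coordinates -/
def sy (t cR XR cz Xz : TR S) (hT : h (TR.dg t 1) (TR.dg cR 1 ⊔ TR.dg XR 1 ⊔ TR.dg cz 1 ⊔ TR.dg Xz 1) = 1) :
    Sys S 2 where
  a := TR.vec ![cR, cz]
  x := TR.vec ![XR, Xz]
  t := TR.vec (fun _ : Fin 1 => t)
  ht := by
    rw [two_dg, two_dg]
    have h1 : TR.dg cR 1 ⊔ TR.dg cz 1 ⊔ (TR.dg XR 1 ⊔ TR.dg Xz 1) =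
        TR.dg cR 1 ⊔ TR.dg XR 1 ⊔ TR.dg cz 1 ⊔ TR.dg Xz 1 := by
      rw [sup_assoc, sup_assoc, sup_assoc, sup_left_comm (TR.dg cz 1)]
    rw [h1]
    exact hT

theorem sy_xi (t cR XR cz Xz : TR S) (hT : h (TR.dg t 1) (TR.dg cR 1 ⊔ TR.dg XR 1 ⊔ TR.dg cz 1 ⊔ TR.dg Xz 1) = 1) :
    (sy t cR XR cz Xz hT).xi 1 = TR.dg cR 1 ⊔ TR.dg XR 1 ⊔ TR.dg cz 1 ⊔ TR.dg Xz 1 := by
  show (TR.vec ![cR, cz]).dg 1 ⊔ (TR.vec ![XR, Xz]).dg 1 = _
  rw [two_dg, two_dg, sup_assoc, sup_assoc, sup_assoc, sup_left_comm (TR.dg cz 1)]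

theorem sy_P (t cR XR cz Xz : TR S) (hT : h (TR.dg t 1) (TR.dg cR 1 ⊔ TR.dg XR 1 ⊔ TR.dg cz 1 ⊔ TR.dg Xz 1) = 1) :
    (sy t cR XR cz Xz hT).P.dg 1 = TR.dg (cR + t * XR) 1 ⊔ TR.dg (cz + t * Xz) 1 := by
  have h0 : TR.cor (sy t cR XR cz Xz hT).P 0 = cR + t * XR := rfl
  have h1 : TR.cor (sy t cR XR cz Xz hT).P 1 = cz + t * Xz := rfl
  rw [← h0, ← h1]
  apply le_antisymm
  · rw [TR.vv_dg_le_iff]
    intro i
    fin_cases i
    · exact le_sup_left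
    · exact le_sup_right
  · exact sup_le (TR.cor_dg_le _ 0 1) (TR.cor_dg_le _ 1 1)

/-- the package in coordinates -/
theorem nrm_of_pk {t cR XR cz Xz : TR S}
    {hT : h (TR.dg t 1) (TR.dg cR 1 ⊔ TR.dg XR 1 ⊔ TR.dg cz 1 ⊔ TR.dg Xz 1) = 1} (K : Pk (sy t cR XR cz Xz hT)) :
    Nrm K.W K.G (K.p.tr t) (K.p.tr cR) (K.p.tr XR) (K.p.tr cz) (K.p.tr Xz) := by
  have hR : K.p.tr cR + K.p.tr t * K.p.tr XR = K.p.tr (cR + t * XR) := by rw [map_add, map_mul]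
  have hz : K.p.tr cz + K.p.tr t * K.p.tr Xz = K.p.tr (cz + t * Xz) := by rw [map_add, map_mul]
  refine ⟨⟨K.bdd, K.gd, ?_⟩, ?_, ?_, ?_, ?_⟩
  · intro L hL
    have hL' : S.Sub L := by
      refine ⟨hL.1, hL.2.congr fun k => ?_⟩
      rw [K.p.hn k]
    obtain ⟨M, hM, hTM⟩ := K.line L hL'
    refine ⟨M, hM, typ_mono hTM (Eventually.of_forall fun k ω _ h r hr => ?_)⟩
    have h1 : pl ((sy t cR XR cz Xz hT).a.v k (K.p.π k ω)) ((sy t cR XR cz Xz hT).x.v k (K.p.π k ω)) r =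
        ![r, TR.ev (K.p.tr cR) k ω + r * TR.ev (K.p.tr XR) k ω, TR.ev (K.p.tr cz) k ω + r * TR.ev (K.p.tr Xz) k ω] := by
      rw [ev_tr, ev_tr, ev_tr, ev_tr]
      funext i
      fin_cases i <;> rfl
    rw [← h1]
    exact h r hr
  · rw [K.p.tr_dg, K.p.tr_dg, K.p.tr_dg, K.p.tr_dg, K.p.tr_dg, ← K.p.map_sup, ← K.p.map_sup, ← K.p.map_sup,
      K.p.h_map]
    exact hT
  · rw [K.p.tr_dg, K.p.tr_dg, K.p.tr_dg, K.p.tr_dg, ← K.p.map_sup, ← K.p.map_sup, ← K.p.map_sup,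
      ← sy_xi t cR XR cz Xz hT]
    exact K.leA
  · rw [hR, hz, K.p.tr_dg, K.p.tr_dg, K.p.tr_dg, ← K.p.map_sup, ← K.p.map_sup, ← sy_P t cR XR cz Xz hT]
    exact K.leB
  · rw [hR, hz, K.p.tr_dg, K.p.tr_dg, K.p.tr_dg, ← K.p.map_sup, ← sy_P t cR XR cz Xz hT]
    exact K.full

end

end Pool.Agent.Helper72.PLK
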