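import Pool.Agent.Helper72.PLK.Pk

/-! Forms bounded along lines, restrictions, extensions; the digits of the points over the form. -/

set_option autoImplicit false

namespace Pool.Agent.Helper72.PLK

open Finset Filter Topology Matrix Pool.Agent.Helper69.RK Pool.Agent.Helper31.EC
open Pool.Agent.Helper31.EC.Sp
open Pool.Agent.Helper89.LX (qf)
open Pool.Agent.Helper3.LF (phi typ_mono typ_and)

noncomputable section

variable {S : Sp}

theorem ev_rest (E : ∀ k, (S.F k).Ω → Prop) (f : TR S) (k : ℕ) (ω : (S.F k).Ω) :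
    TR.ev (TR.rest E f) k ω = TR.ev f k ω := by
  unfold TR.ev
  rfl

theorem ev_tr {T : Sp} (p : Pj T S) (f : TR S) (k : ℕ) (ω : (T.F k).Ω) :
    TR.ev (p.tr f) k ω = TR.ev f k (p.π k ω) := by
  unfold TR.ev
  rfl

/-- a form of degree `1` which is bounded along the lines -/
structure Ln (S : Sp) (G : ∀ k, (S.F k).Ω → Matrix M4 M4 ℝ) (cR XR cz Xz : TR S) : Prop where
  bdd : Bdd G
  gd : ∀ᶠ k in UF, ∀ ω, (S.F k).μ ω ≠ 0 → Gd (G k ω)
  ln : ∀ L : ℕ → ℝ, S.Sub L → ∃ K : ℕ → ℝ, S.Sub K ∧ Typ (fun k ω => ∀ r, |r| ≤ L k →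
    phi (S.dl 1 k) (G k ω) ![r, TR.ev cR k ω + r * TR.ev XR k ω, TR.ev cz k ω + r * TR.ev Xz k ω] ≤ K k)

namespace Ln

variable {G : ∀ k, (S.F k).Ω → Matrix M4 M4 ℝ} {cR XR cz Xz : TR S} (P : Ln S G cR XR cz Xz)

include P

theorem rest (E : ∀ k, (S.F k).Ω → Prop) (hE : 0 < ul (S.pr E)) :
    Ln (S.rest E) G (TR.rest E cR) (TR.rest E XR) (TR.rest E cz) (TR.rest E Xz) where
  bdd := rest_VB E P.bdd
  gd := by
    filter_upwards [P.gd] with k hk ω hω
    exact hk ω ((S.F k).rest_supp (E k) ω hω).1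
  ln := by
    intro L hL
    obtain ⟨K, hK, hT⟩ := P.ln L hL
    refine ⟨K, hK, ?_⟩
    have h1 := hT.rest E hE
    refine typ_mono h1 (Eventually.of_forall fun k ω _ h2 r hr => ?_)
    rw [ev_rest, ev_rest, ev_rest, ev_rest, Sp.rest_dl]
    exact h2 r hr

theorem pull {D : Sp} (q : Pj D S) :
    Ln D (fun k ω => G k (q.π k ω)) (q.tr cR) (q.tr XR) (q.tr cz) (q.tr Xz) where
  bdd := by
    have h := (q.vb_pb (A := fun k => Setoid.ker (G k))).mpr P.bdd
    exact h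
  gd := by
    filter_upwards [P.gd] with k hk ω hω
    exact hk _ (q.supp k ω hω)
  ln := by
    intro L hL
    have hL' : S.Sub L := by
      refine ⟨hL.1, hL.2.congr fun k => ?_⟩
      rw [q.hn k]
    obtain ⟨K, hK, hT⟩ := P.ln L hL'
    refine ⟨K, q.sub hK, ?_⟩
    refine typ_mono (q.typ hT) (Eventually.of_forall fun k ω _ h r hr => ?_)
    have h1 : D.dl 1 k = S.dl 1 k := by
      unfold Sp.dl
      rw [q.hn k]
    rw [h1, ev_tr, ev_tr, ev_tr, ev_tr]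
    exact h r hr

/-- points of the lines -/
theorem pd (τ : TR S) : Pd S G τ (cR + τ * XR) (cz + τ * Xz) where
  bdd := P.bdd
  gd := P.gd
  sm := by
    obtain ⟨L, hL, h⟩ := τ.2
    obtain ⟨K, hK, hT⟩ := P.ln L hL
    refine ⟨K, hK, typ_mono hT ?_⟩
    filter_upwards [h] with k hk ω hω h1
    have h2 := h1 (TR.ev τ k ω) (hk ω hω)
    rw [TR.ev_add, TR.ev_mul, TR.ev_add, TR.ev_mul]
    exact h2

end Ln

/-- the package of a system, in coordinates -/
structure Nrm (S : Sp) (G : ∀ k, (S.F k).Ω → Matrix M4 M4 ℝ) (t cR XR cz Xz : TR S) : Prop where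
  ln : Ln S G cR XR cz Xz
  time : h (TR.dg t 1) (TR.dg cR 1 ⊔ TR.dg XR 1 ⊔ TR.dg cz 1 ⊔ TR.dg Xz 1) = 1
  leA : io G ≤ TR.dg cR 1 ⊔ TR.dg XR 1 ⊔ TR.dg cz 1 ⊔ TR.dg Xz 1
  leB : io G ≤ TR.dg (cR + t * XR) 1 ⊔ TR.dg (cz + t * Xz) 1 ⊔ TR.dg t 1
  full : 2 - (ex S (lz G) + ex S (lR G)) ≤ h (TR.dg (cR + t * XR) 1 ⊔ TR.dg (cz + t * Xz) 1) (io G ⊔ TR.dg t 1)

namespace Nrm

variable {G : ∀ k, (S.F k).Ω → Matrix M4 M4 ℝ} {t cR XR cz Xz : TR S} (N : Nrm S G t cR XR cz Xz)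

include N

theorem bz : Bf S 1 (lz G) := Pd.lz_Bf N.ln.gd

theorem bR : Bf S 1 (lR G) := Pd.lR_Bf N.ln.gd

/-- digits of the second coordinate -/
theorem R_le : h (TR.dg (cR + t * XR) 1) (io G ⊔ TR.dg t 1) ≤ 1 - ex S (lR G) := by
  refine ((N.ln.pd t).cR 1 zero_le_one).trans ?_
  rw [← ex_const_sub N.bR]
  have h1 : Bf S 1 (fun k ω => max (1 - lR G k ω) 0) := by
    filter_upwards [N.bR] with k hk ω hω
    exact ⟨le_max_right _ _, max_le (by linarith [(hk ω hω).1]) zero_le_one⟩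
  have h2 : Bf S 1 (fun k ω => 1 - lR G k ω) := by
    filter_upwards [N.bR] with k hk ω hω
    exact ⟨by linarith [(hk ω hω).2], by linarith [(hk ω hω).1]⟩
  apply ex_mono h1 h2
  filter_upwards [N.bR] with k hk ω hω
  exact max_le le_rfl (by linarith [(hk ω hω).2])

/-- digits of the third coordinate -/
theorem z_le : h (TR.dg (cz + t * Xz) 1) (io G ⊔ TR.dg t 1 ⊔ TR.dg (cR + t * XR) 1) ≤ 1 - ex S (lz G) := by
  refine ((N.ln.pd t).cz 1 zero_le_one).trans ?_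
  rw [← ex_const_sub N.bz]
  have h1 : Bf S 1 (fun k ω => max (1 - lz G k ω) 0) := by
    filter_upwards [N.bz] with k hk ω hω
    exact ⟨le_max_right _ _, max_le (by linarith [(hk ω hω).1]) zero_le_one⟩
  have h2 : Bf S 1 (fun k ω => 1 - lz G k ω) := by
    filter_upwards [N.bz] with k hk ω hω
    exact ⟨by linarith [(hk ω hω).2], by linarith [(hk ω hω).1]⟩
  apply ex_mono h1 h2
  filter_upwards [N.bz] with k hk ω hω
  exact max_le le_rfl (by linarith [(hk ω hω).2])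

omit N in
theorem both : h (TR.dg (cR + t * XR) 1 ⊔ TR.dg (cz + t * Xz) 1) (io G ⊔ TR.dg t 1) =
    h (TR.dg (cR + t * XR) 1) (io G ⊔ TR.dg t 1) +
      h (TR.dg (cz + t * Xz) 1) (io G ⊔ TR.dg t 1 ⊔ TR.dg (cR + t * XR) 1) := by
  rw [h_chain, sup_comm (TR.dg (cR + t * XR) 1) (io G ⊔ TR.dg t 1)]

/-- SHARP: digits of the second coordinate -/
theorem R_ge : 1 - ex S (lR G) ≤ h (TR.dg (cR + t * XR) 1) (io G ⊔ TR.dg t 1) := by
  have h1 := N.full
  rw [both] at h1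
  have h2 := N.z_le
  linarith

/-- SHARP: digits of the third coordinate -/
theorem z_ge : 1 - ex S (lz G) ≤ h (TR.dg (cz + t * Xz) 1) (io G ⊔ TR.dg t 1 ⊔ TR.dg (cR + t * XR) 1) := by
  have h1 := N.full
  rw [both] at h1
  have h2 := N.R_le
  linarith

omit N in
theorem max_le_sub (S : Sp) (f : ∀ k, (S.F k).Ω → ℝ) (hf : Bf S 1 f) :
    ex S (fun k ω => max (1 - f k ω) 0) ≤ 1 - ex S f := by
  rw [← ex_const_sub hf]
  have h1 : Bf S 1 (fun k ω => max (1 - f k ω) 0) := by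
    filter_upwards [hf] with k hk ω hω
    exact ⟨le_max_right _ _, max_le (by linarith [(hk ω hω).1]) zero_le_one⟩
  have h2 : Bf S 1 (fun k ω => 1 - f k ω) := by
    filter_upwards [hf] with k hk ω hω
    exact ⟨by linarith [(hk ω hω).2], by linarith [(hk ω hω).1]⟩
  apply ex_mono h1 h2
  filter_upwards [hf] with k hk ω hω
  exact max_le le_rfl (by linarith [(hk ω hω).2])

/-- upper bounds on events -/
theorem up (E : ∀ k, (S.F k).Ω → Prop) (hE : 0 < ul (S.pr E)) :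
    h (restL E hE (TR.dg (cR + t * XR) 1 ⊔ TR.dg (cz + t * Xz) 1)) (restL E hE (io G ⊔ TR.dg t 1)) ≤
      2 - (ex (S.rest E) (lz (S := S) G) + ex (S.rest E) (lR (S := S) G)) := by
  have L' := N.ln.rest E hE
  have hio' : io (S := S.rest E) G = restL E hE (io G) := (restL_io E hE N.ln.bdd).symm
  have hR' : TR.dg (TR.rest E cR + TR.rest E t * TR.rest E XR) 1 = restL E hE (TR.dg (cR + t * XR) 1) :=
    TR.rest_dg E hE (cR + t * XR) 1
  have hz' : TR.dg (TR.rest E cz + TR.rest E t * TR.rest E Xz) 1 = restL E hE (TR.dg (cz + t * Xz) 1) :=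
    TR.rest_dg E hE (cz + t * Xz) 1
  have ht' : TR.dg (TR.rest E t) 1 = restL E hE (TR.dg t 1) := TR.rest_dg E hE t 1
  have f1 : Bf (S.rest E) 1 (lR (S := S) G) := Bf.rest E N.bR
  have f2 : Bf (S.rest E) 1 (lz (S := S) G) := Bf.rest E N.bz
  have b1 : h (TR.dg (TR.rest E cR + TR.rest E t * TR.rest E XR) 1) (io (S := S.rest E) G ⊔ TR.dg (TR.rest E t) 1) ≤
      ex (S.rest E) (fun k ω => max (1 - lR (S := S) G k ω) 0) := (L'.pd (TR.rest E t)).cR 1 zero_le_one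
  have b2 : h (TR.dg (TR.rest E cz + TR.rest E t * TR.rest E Xz) 1) (io (S := S.rest E) G ⊔ TR.dg (TR.rest E t) 1 ⊔
      TR.dg (TR.rest E cR + TR.rest E t * TR.rest E XR) 1) ≤
      ex (S.rest E) (fun k ω => max (1 - lz (S := S) G k ω) 0) := (L'.pd (TR.rest E t)).cz 1 zero_le_one
  rw [hio', ht', hR', ← restL_sup] at b1
  rw [hio', ht', hR', hz', ← restL_sup, ← restL_sup] at b2
  have c1 := b1.trans (max_le_sub _ _ f1)
  have c2 := b2.trans (max_le_sub _ _ f2)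
  rw [restL_sup E hE (TR.dg (cR + t * XR) 1), h_chain, ← restL_sup,
    sup_comm (TR.dg (cR + t * XR) 1) (io G ⊔ TR.dg t 1)]
  linarith

/-- lower bounds on events -/
theorem lo (E : ∀ k, (S.F k).Ω → Prop) (hE : 0 < ul (S.pr E)) :
    2 - (ex (S.rest E) (lz (S := S) G) + ex (S.rest E) (lR (S := S) G)) ≤
    h (restL E hE (TR.dg (cR + t * XR) 1 ⊔ TR.dg (cz + t * Xz) 1)) (restL E hE (io G ⊔ TR.dg t 1)) := by
  have hfull := N.full
  have h2 := ex_split E N.bz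
  have h3 := ex_split E N.bR
  rcases typ_or E with ht | hE'
  · have h1 : h (restL E hE (TR.dg (cR + t * XR) 1 ⊔ TR.dg (cz + t * Xz) 1)) (restL E hE (io G ⊔ TR.dg t 1)) =
        h (TR.dg (cR + t * XR) 1 ⊔ TR.dg (cz + t * Xz) 1) (io G ⊔ TR.dg t 1) := h_restL_typ E ht _ _
    rw [h1]
    rw [ul_pr_typ E ht] at h2 h3
    linarith
  · have h1 := h_split E hE hE' (TR.dg (cR + t * XR) 1 ⊔ TR.dg (cz + t * Xz) 1) (io G ⊔ TR.dg t 1)
    have h4 := N.up _ hE'
    have h5 := ul_pr_le_one E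
    have h6 := mul_le_mul_of_nonneg_left h4 (sub_nonneg.mpr h5)
    rw [h1, h2, h3] at hfull
    by_contra hc
    push Not at hc
    have h7 := mul_lt_mul_of_pos_left hc hE
    linarith

/-- RESTRICTION to events of positive probability -/
theorem rest (E : ∀ k, (S.F k).Ω → Prop) (hE : 0 < ul (S.pr E)) :
    Nrm (S.rest E) G (TR.rest E t) (TR.rest E cR) (TR.rest E XR) (TR.rest E cz) (TR.rest E Xz) := by
  have hio : io (S := S.rest E) G = restL E hE (io G) := (restL_io E hE N.ln.bdd).symm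
  have hR : TR.dg (TR.rest E cR + TR.rest E t * TR.rest E XR) 1 = restL E hE (TR.dg (cR + t * XR) 1) :=
    TR.rest_dg E hE (cR + t * XR) 1
  have hz : TR.dg (TR.rest E cz + TR.rest E t * TR.rest E Xz) 1 = restL E hE (TR.dg (cz + t * Xz) 1) :=
    TR.rest_dg E hE (cz + t * Xz) 1
  refine ⟨N.ln.rest E hE, ?_, ?_, ?_, ?_⟩
  · rw [TR.rest_dg E hE t, TR.rest_dg E hE cR, TR.rest_dg E hE XR, TR.rest_dg E hE cz, TR.rest_dg E hE Xz,
      ← restL_sup, ← restL_sup, ← restL_sup]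
    apply Sp.h_rest_max E hE N.time
    intro E' hE'
    rw [← TR.rest_dg E' hE']
    refine (h_le_H _ _).trans ?_
    have h1 := (TR.vec (fun _ : Fin 1 => TR.rest E' t)).H_dg_le (r := 1) zero_le_one
    rw [Nat.cast_one, one_mul] at h1
    exact h1
  · rw [hio, TR.rest_dg E hE cR, TR.rest_dg E hE XR, TR.rest_dg E hE cz, TR.rest_dg E hE Xz,
      ← restL_sup, ← restL_sup, ← restL_sup]
    exact restL_mono E hE N.leA
  · rw [hio, hR, hz, TR.rest_dg E hE t, ← restL_sup, ← restL_sup]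
    exact restL_mono E hE N.leB
  · rw [hio, hR, hz, TR.rest_dg E hE t, ← restL_sup, ← restL_sup]
    exact N.lo E hE

end Nrm

end

end Pool.Agent.Helper72.PLK
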