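import Pool.Agent.Helper72.PLK.Main
import Pool.Agent.Helper8.PLK.Plk

/-! PLANKS at all depths over a base (`PLKr`) from `ST 1 2`. -/

set_option autoImplicit false

namespace Pool.Agent.Helper72.PLK

/-- PLANKS -/
theorem plkr (hst : Pool.Agent.Helper59.EV.ST 1 2) : Pool.Agent.Helper54.NB.PLKr :=
  Pool.Agent.Helper8.PLK.plkr_of (plk1 hst)

end Pool.Agent.Helper72.PLK
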