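import Pool.Agent.Helper72.PLK.Vol

/-! The package of a system of lines in three dimensions: a space with a form of degree `1` which is a function of the
line and of the point, bounded along the lines; the points fill the regular volume. -/

set_option autoImplicit false

namespace Pool.Agent.Helper72.PLK

open Finset Filter Topology Matrix Pool.Agent.Helper69.RK Pool.Agent.Helper31.EC Pool.Agent.Helper40.EL
open Pool.Agent.Helper31.EC.Sp
open Pool.Agent.Helper95.LF (PdM)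
open Pool.Agent.Helper3.LF Pool.Agent.Helper89.LX
open Pool.Agent.Helper48.NS (GG one_le_GG GG_mono)

noncomputable section

variable {S : Sp}

/-- the package -/
structure Pk (s : Sys S 2) : Type 1 where
  W : Sp
  p : Pj W S
  G : ∀ k, (W.F k).Ω → Matrix M4 M4 ℝ
  bdd : Bdd G
  gd : ∀ᶠ k in UF, ∀ ω, (W.F k).μ ω ≠ 0 → Gd (G k ω)
  leA : io G ≤ p.map (s.xi 1)
  leB : io G ≤ p.map (s.P.dg 1 ⊔ s.T)
  line : ∀ L : ℕ → ℝ, S.Sub L → ∃ K : ℕ → ℝ, W.Sub K ∧ Typ (fun k ω => ∀ r, |r| ≤ L k →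
    phi (W.dl 1 k) (G k ω) (pl (s.a.v k (p.π k ω)) (s.x.v k (p.π k ω)) r) ≤ K k)
  full : 2 - (ex W (lz G) + ex W (lR G)) ≤ h (p.map (s.P.dg 1)) (io G ⊔ p.map s.T)

theorem vv_dg_zero {m : ℕ} (y : S.VV m) : y.dg 0 = ⊥ := by
  have h1 := y.H_dg_le (r := 0) le_rfl
  rw [mul_zero] at h1
  apply le_bot_iff.mp
  rw [← h_eq_zero_iff]
  exact le_antisymm (by rw [h_bot]; exact h1) (h_nonneg _ _)

theorem phi_le_smul {A g : Matrix M4 M4 ℝ} {c : ℝ} (h : ∀ v, qf A v ≤ c * qf g v) (r : ℝ) (p : Fin (2 + 1) → ℝ) :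
    phi r A p ≤ c * phi r g p := by
  rw [← phi_smul]
  apply phi_mono
  intro x
  rw [Matrix.smul_mulVec, dotProduct_smul, smul_eq_mul]
  exact h x

/-- the forms of a canonical sequence are bounded along the lines -/
theorem can_line (s : Sys S 2) {x : ∀ k, FD (S.F k) (Mon (2 + 1) 1)} (hx : IsCan s 1 0 x)
    (G : ∀ k, (x k).l.T.Ω → Matrix M4 M4 ℝ) (κ : ℕ → ℝ) (hκ : S.Sub κ) (hκ1 : ∀ k, 1 ≤ κ k)
    (hc : ∀ᶠ k in UF, ∀ ω, (x k).l.T.μ ω ≠ 0 → (G k ω).IsSymm ∧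
        (∀ v, qf ((x k).g ω) v ≤ qf (G k ω) v) ∧ ∀ v, qf (G k ω) v ≤ κ k * qf ((x k).g ω) v)
    (L : ℕ → ℝ) (hL : S.Sub L) :
    ∃ K : ℕ → ℝ, S.Sub K ∧ Typ (S := (lb x).sp) (fun k (ω : (x k).l.T.Ω) => ∀ r, |r| ≤ L k →
      phi (S.dl 1 k) (G k ω) (pl (s.a.v k ((x k).l.p.π ω)) (s.x.v k ((x k).l.p.π ω)) r) ≤ K k) := by
  obtain ⟨Kt, hKt, ht⟩ := s.t.bd
  obtain ⟨K0, hK0, hT0⟩ := ad_sub (Φ := gau s 1) hx.1.1
  have hA : ∀ᶠ k in UF, ∀ ω, (x k).l.T.μ ω ≠ 0 → PdM ((x k).g ω) := by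
    filter_upwards [hx.1.1 1 one_pos] with k hk ω hω
    have h1 := (hk.2.2.1 ω hω).1
    refine ⟨h1.1, fun v hv => h1.pd hv⟩
  have hV : ∀ᶠ k in UF, ∀ ω ω', (x k).l.T.μ ω ≠ 0 → (x k).l.T.μ ω' ≠ 0 → (x k).l.V ω ω' → (x k).l.T.Z ω ω' →
      (x k).g ω = (x k).g ω' := Eventually.of_forall fun k ω ω' a b c d => ((x k).meas ω ω' a b c d).1
  obtain ⟨K1, hK1, hT1⟩ := win_phi (s := s) (D := 1) (c := 0) le_rfl one_pos (l := lb x) hx.2.1
    (fun k ω => (x k).g ω) hA hV 0 le_rfl (fun k => L k + Kt k) (hL.add hKt)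
  refine ⟨fun k => κ k * (K1 k * K0 k), hκ.mul (hK1.mul hK0), ?_⟩
  refine typ_mono (typ_and hT0 hT1) ?_
  filter_upwards [hc, ht, hK1.1, hK0.1] with k h1 h2 h3 h4 ω hω hh r hr
  obtain ⟨g1, g2⟩ := hh
  have hπ : (S.F k).μ ((x k).l.p.π ω) ≠ 0 := (x k).l.p.supp ω hω
  have e1 := g2 r (by
    show |r - s.t.v k ((x k).l.p.π ω) 0| ≤ (L k + Kt k) * S.dl (0 - 0) k
    rw [sub_zero, S.dl_zero, mul_one]
    have := h2 _ hπ 0
    have e2 := abs_sub r (s.t.v k ((x k).l.p.π ω) 0)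
    linarith)
  have e3 : K1 k * 2 ^ (((2 * 1 : ℕ) : ℝ) * 0 * (S.F k).n) * sph s 1 k ((x k).l.p.π ω) ((x k).g ω) ≤ K1 k * K0 k := by
    rw [mul_zero, zero_mul, Real.rpow_zero, mul_one]
    exact mul_le_mul_of_nonneg_left g1 h3
  have e4 := phi_le_smul (h1 ω hω).2.2 (S.dl 1 k) (pl (s.a.v k ((x k).l.p.π ω)) (s.x.v k ((x k).l.p.π ω)) r)
  refine e4.trans ?_
  apply mul_le_mul_of_nonneg_left _ (by linarith [hκ1 k])
  exact e1.trans e3

/-- the regular volume -/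
theorem can_vol (s : Sys S 2) {x : ∀ k, FD (S.F k) (Mon (2 + 1) 1)} (hx : IsCan s 1 0 x)
    (G : ∀ k, (x k).l.T.Ω → Matrix M4 M4 ℝ) (hgd : ∀ᶠ k in UF, ∀ ω, (x k).l.T.μ ω ≠ 0 → Gd (G k ω))
    (hc : ∀ᶠ k in UF, ∀ ω, (x k).l.T.μ ω ≠ 0 → ∀ v, qf ((x k).g ω) v ≤ qf (G k ω) v)
    (K : ℕ → ℝ) (hK : S.Sub K) (hK1 : ∀ k, 1 ≤ K k) (hT : Typ (S := (lb x).sp) (fun k (ω : (x k).l.T.Ω) =>
      phi (S.dl 1 k) (G k ω) (ptf s k ((x k).l.p.π ω)) ≤ K k)) :
    2 - (ex (lb x).sp (lz G) + ex (lb x).sp (lR G)) ≤ Pool.Agent.Helper59.EV.rvol s 1 x := by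
  have hb1 : Bf (lb x).sp 1 (lz G) := Pd.lz_Bf (S := (lb x).sp) hgd
  have hb2 : Bf (lb x).sp 1 (lR G) := Pd.lR_Bf (S := (lb x).sp) hgd
  rw [← ex_add hb1 hb2]
  unfold Pool.Agent.Helper59.EV.rvol
  push_cast
  have hcp := Gau.one_le_cp (gau s 1)
  set c0 : ℝ := (wv 1 : M4 → ℝ) ⬝ᵥ wv 1 + (wv 2 : M4 → ℝ) ⬝ᵥ wv 2 + 1 with hc0
  have hc1 : 1 ≤ c0 := by
    have h1 : 0 ≤ (wv 1 : M4 → ℝ) ⬝ᵥ wv 1 := dot_self_nonneg _
    have h2 : 0 ≤ (wv 2 : M4 → ℝ) ⬝ᵥ wv 2 := dot_self_nonneg _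
    linarith
  have hn := fun k => sp_n (lb x) k
  -- the exponent of the volume
  set f : ∀ k, (x k).l.T.Ω → ℝ := fun k ω =>
    Real.logb 2 (GG (S.dl 1 k) ((x k).g ω) (ptf s k ((x k).l.p.π ω))) / (2 * (S.F k).n) with hf
  have hbf : Bf (lb x).sp ((gau s 1).C + 2) f := by
    have hlim : Tendsto (fun k => (Real.logb 2 81 / 2 + Real.logb 2 c0) / (S.F k).n) UF (𝓝 0) := S.div_n_tendsto _
    filter_upwards [hx.1.1 1 one_pos, hlim.eventually (gt_mem_nhds one_pos)] with k hk hl ω hω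
    have hp := (S.F k).pos
    have h1 := (hk.2.2.1 ω hω).1
    have h2 := one_le_GG (S.dl 1 k) h1.1 h1.psd.2 (ptf s k ((x k).l.p.π ω))
    have h3 := log_bad h1 (hcp k) (S.dl 1 k) (ptf s k ((x k).l.p.π ω))
    refine ⟨div_nonneg (Real.logb_nonneg (by norm_num) h2) (by positivity), ?_⟩
    have h4 : GG (S.dl 1 k) ((x k).g ω) (ptf s k ((x k).l.p.π ω)) ≤ 81 * ((gau s 1).cp k * c0) ^ 2 := by
      refine h3.trans ?_
      apply mul_le_mul_of_nonneg_left _ (by norm_num : (0 : ℝ) ≤ 81)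
      have d1 : 0 ≤ (wv 1 : M4 → ℝ) ⬝ᵥ wv 1 := dot_self_nonneg _
      have d2 : 0 ≤ (wv 2 : M4 → ℝ) ⬝ᵥ wv 2 := dot_self_nonneg _
      apply pow_le_pow_left₀ (mul_nonneg (by linarith [hcp k]) (by linarith))
      apply mul_le_mul_of_nonneg_left _ (by linarith [hcp k])
      linarith
    have h5 := Real.logb_le_logb_of_le (b := 2) (by norm_num) (by linarith) h4
    have h6 : (0 : ℝ) < (gau s 1).cp k := by linarith [hcp k]
    rw [Real.logb_mul (by norm_num) (by positivity), Real.logb_pow, Real.logb_mul h6.ne' (by linarith)] at h5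
    have h7 : Real.logb 2 ((gau s 1).cp k) = ((gau s 1).C + 1) * (S.F k).n := by
      unfold Gau.cp
      rw [Real.logb_rpow (by norm_num) (by norm_num)]
    rw [h7] at h5
    rw [div_lt_iff₀ hp] at hl
    rw [hf]
    beta_reduce
    rw [div_le_iff₀ (by positivity)]
    push_cast at h5
    nlinarith
  have hkey : ex (lb x).sp f ≤ ex (lb x).sp (fun k ω => lz G k ω + lR G k ω) := by
    have hs : Bf (lb x).sp (1 + 1) (fun k ω => lz G k ω + lR G k ω) := by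
      filter_upwards [hb1, hb2] with k a b ω hω
      exact ⟨add_nonneg (a ω hω).1 (b ω hω).1, add_le_add (a ω hω).2 (b ω hω).2⟩
    refine ex_le_bad hbf hs _ hT (fun k => (Real.logb 2 81 / 2 + Real.logb 2 (16 * K k)) / (S.F k).n) ?_ ?_ ?_
    · have h1 : Tendsto (fun k => Real.logb 2 (16 * K k + 2) / (S.F k).n) UF (𝓝 0) :=
        ((S.Sub_const (by norm_num : (0 : ℝ) ≤ 16)).mul hK).2
      have h2 : Tendsto (fun k => Real.logb 2 81 / 2 / (S.F k).n + Real.logb 2 (16 * K k + 2) / (S.F k).n) UF (𝓝 0) := by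
        have := (S.div_n_tendsto (Real.logb 2 81 / 2)).add h1
        rwa [add_zero] at this
      refine squeeze_zero' (Eventually.of_forall fun k => ?_) (Eventually.of_forall fun k => ?_) h2
      · have := hK1 k
        exact div_nonneg (add_nonneg (div_nonneg (Real.logb_nonneg (by norm_num) (by norm_num)) (by norm_num))
          (Real.logb_nonneg (by norm_num) (by linarith))) (S.F k).pos.le
      · have := hK1 k
        rw [add_div]
        apply add_le_add le_rfl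
        apply div_le_div_of_nonneg_right _ (S.F k).pos.le
        exact Real.logb_le_logb_of_le (by norm_num) (by linarith) (by linarith)
    · refine Eventually.of_forall fun k => ?_
      have := hK1 k
      exact div_nonneg (add_nonneg (div_nonneg (Real.logb_nonneg (by norm_num) (by norm_num)) (by norm_num))
          (Real.logb_nonneg (by norm_num) (by linarith))) (S.F k).pos.le
    · filter_upwards [hx.1.1 1 one_pos, hgd, hc] with k hk h1 h2 ω hω hE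
      have c1 := (hk.2.2.1 ω hω).1
      have h3 := log_le (h1 ω hω) ⟨c1.1, c1.2.1⟩ (h2 ω hω) (S.F k).pos (hK1 k) (ptf s k ((x k).l.p.π ω))
        (r := S.dl 1 k) (by unfold Sp.dl; rw [one_mul]) hE
      unfold lz lR
      rw [hn k]
      exact h3
  have h1 : ex (lb x).sp f = ul (fun k => ∑ ω, (x k).l.T.μ ω *
      (Real.logb 2 (GG (S.dl 1 k) ((x k).g ω) (ptf s k ((x k).l.p.π ω))) / (2 * (S.F k).n))) := rfl
  rw [← h1]
  linarith

/-- entropies over the label are at most entropies given a function of the label -/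
theorem up1_le {l : Lab S} {α : ℕ → Type} (G : ∀ k, (l k).T.Ω → α k) (hG : Bdd (S := l.sp) G)
    (hm : ∀ k ω ω', (l k).T.μ ω ≠ 0 → (l k).T.μ ω' ≠ 0 → (l k).V ω ω' → (l k).T.Z ω ω' → G k ω = G k ω')
    (x y : S.L) : h (up1 l x) (up1 l y) ≤ h (l.pj.map x) (io (S := l.sp) G ⊔ l.pj.map y) := by
  have e0 : h (up1 l x) (up1 l y) = ul (fun k => h ((l k).p.map (rp x k)) ((l k).p.map (rp y k) ⊔ (l k).v) / (S.F k).n) := by
    rw [l.hr_upL, div_one]
  have e1 : h (l.pj.map x) (io (S := l.sp) G ⊔ l.pj.map y) =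
      ul (l.sp.rt (l.pj.mapI (rpo x)).1 (Inf.sup hG.toInf (l.pj.mapI (rpo y))).1) := by
    rw [← h_cl, cl_sup, ← Pj.map_cl, ← Pj.map_cl, cl_rpo, cl_rpo, ← io_eq hG]
  rw [e0, e1]
  apply ul_mono
  · refine UB.sandwich (UB_const 0) ((rp_Bd x).ub (fun _ => ⊥)) ?_ ?_
    · exact Eventually.of_forall fun k => div_nonneg (h_nonneg _ _) (S.F k).pos.le
    · refine Eventually.of_forall fun k => div_le_div_of_nonneg_right ?_ (S.F k).pos.le
      rw [h_bot, ← (l k).p.H_map]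
      exact h_le_H _ _
  · exact UB_rt _ _
  · refine Eventually.of_forall fun k => ?_
    unfold Sp.rt
    rw [sp_n]
    apply div_le_div_of_nonneg_right _ (S.F k).pos.le
    have e2 : (l.sp.F k).e ((l.pj.mapI (rpo x)).1 k) ((Inf.sup hG.toInf (l.pj.mapI (rpo y))).1 k ⊓ (l.sp.F k).Z) =
        h ((l k).p.map (rp x k)) ((fc (Setoid.ker (G k)) : FL (l k).T) ⊔ (l k).p.map (rp y k)) := (h_fc _ _).symm
    rw [e2]
    apply h_anti
    apply sup_le
    · refine le_trans ?_ le_sup_right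
      exact fc_le fun ω ω' a b c d => hm k ω ω' a b d c
    · exact le_sup_left

/-- EXISTENCE of the package -/
theorem exists_pk (hst : Pool.Agent.Helper59.EV.ST 1 2) (s : Sys S 2) : Nonempty (Pk s) := by
  obtain ⟨x, hx⟩ := exists_can s 1 0
  obtain ⟨G, κ, hκ, hκ1, hG, hm, hc, hn⟩ := denoise (Φ := gau s 1) hx.1
  have hgd : ∀ᶠ k in UF, ∀ ω, (x k).l.T.μ ω ≠ 0 → Gd (G k ω) := by
    filter_upwards [hx.1.1 1 one_pos, hc] with k hk h1 ω hω
    have c1 := (hk.2.2.1 ω hω).1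
    exact ⟨(h1 ω hω).1, fun v => (c1.2.1 v).trans ((h1 ω hω).2.1 v)⟩
  have hdl := fun k => sp_dl (lb x) 1 k
  refine ⟨⟨(lb x).sp, (lb x).pj, G, hG, hgd, ?_, ?_, ?_, ?_⟩⟩
  · have h1 := den_le (l := lb x) (Inf.sup (Inf.sup (s.Ia 1) (s.Ix 1)) (s.It 0)) hx.2.1.1 G hG hm hn
    rw [cl_A] at h1
    unfold lA at h1
    rw [vv_dg_zero, sup_bot_eq] at h1
    exact h1
  · have h1 := den_le (l := lb x) (Inf.sup (s.IP 1) (s.It 1)) hx.2.1.2 G hG hm hn
    rw [cl_B] at h1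
    exact h1
  · intro L hL
    obtain ⟨K, hK, hT⟩ := can_line s hx G κ hκ hκ1 hc L hL
    refine ⟨K, (lb x).pj.sub hK, ?_⟩
    refine typ_mono hT (Eventually.of_forall fun k ω _ h => ?_)
    intro r hr
    rw [hdl k]
    exact h r hr
  · obtain ⟨Kt, hKt, ht⟩ := s.t.bd
    obtain ⟨K, hK, hT⟩ := can_line s hx G κ hκ hκ1 hc Kt hKt
    have h1 := can_vol s hx G hgd (hc.mono fun k h ω hω => (h ω hω).2.1) (fun k => K k + 1 + |K k|) ?_ ?_ ?_
    rotate_left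
    · refine ((hK.add (S.Sub_const zero_le_one)).add hK).mono ?_ ?_
      · filter_upwards [hK.1] with k hk
        positivity
      · filter_upwards [hK.1] with k hk
        rw [abs_of_nonneg hk]
    · intro k
      have := neg_abs_le (K k)
      linarith
    · refine typ_mono hT ?_
      filter_upwards [ht] with k h2 ω hω h3
      have hπ : (S.F k).μ ((x k).l.p.π ω) ≠ 0 := (x k).l.p.supp ω hω
      have h4 := h3 (s.t.v k ((x k).l.p.π ω) 0) (h2 _ hπ 0)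
      have h5 := abs_nonneg (K k)
      exact h4.trans (by linarith)
    have h2 := hst S s x hx
    have h3 := up1_le (l := lb x) G hG hm (s.P.dg 1) s.T
    exact h1.trans (h2.trans h3)

end

end Pool.Agent.Helper72.PLK
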