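import Pool.Agent.Helper72.PLK.Ln
import Pool.Agent.Helper25.EC.Rst

/-! If the third coordinate is robustly unsaturated then its coefficient is maximal; the points lie on planes whose
coefficients are functions of the form; the bush of the lines with one form. -/

set_option autoImplicit false

namespace Pool.Agent.Helper72.PLK

open Finset Filter Topology Matrix Pool.Agent.Helper69.RK Pool.Agent.Helper31.EC
open Pool.Agent.Helper31.EC.Sp
open Pool.Agent.Helper89.LX (qf)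
open Pool.Agent.Helper3.LF (phi typ_mono typ_and typ_sub_ge)

noncomputable section

variable {S : Sp}

/-- `z` is unsaturated over `R`, `t` on all events -/
def Un (S : Sp) (t R z : TR S) (ρ : ℝ) : Prop :=
  ∀ (E : ∀ k, (S.F k).Ω → Prop) (hE : 0 < ul (S.pr E)) (v : ℝ), 0 ≤ v → v ≤ 1 →
    h (restL E hE (TR.dg z 1)) (restL E hE (TR.dg z v ⊔ TR.dg R 1 ⊔ TR.dg t 1)) ≤ (1 - ρ) * (1 - v)

theorem rest_n (E : ∀ k, (S.F k).Ω → Prop) (k : ℕ) : ((S.rest E).F k).n = (S.F k).n := rfl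

theorem lz_rest (E : ∀ k, (S.F k).Ω → Prop) (G : ∀ k, (S.F k).Ω → Matrix M4 M4 ℝ) :
    lz (S := S.rest E) G = lz (S := S) G := by
  funext k ω
  unfold lz
  rw [rest_n]

theorem lR_rest (E : ∀ k, (S.F k).Ω → Prop) (G : ∀ k, (S.F k).Ω → Matrix M4 M4 ℝ) :
    lR (S := S.rest E) G = lR (S := S) G := by
  funext k ω
  unfold lR
  rw [rest_n]

namespace Nrm

variable {G : ∀ k, (S.F k).Ω → Matrix M4 M4 ℝ} {t cR XR cz Xz : TR S} (N : Nrm S G t cR XR cz Xz)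

include N

/-- digits of `z` if its exponent is between `u` and `w` -/
theorem z_bin {u w : ℝ} (hu0 : 0 ≤ u) (hw0 : 0 ≤ w) (hu : Typ (fun k ω => u ≤ lz G k ω))
    (hw : ∀ᶠ k in UF, ∀ ω, (S.F k).μ ω ≠ 0 → lz G k ω ≤ w) :
    1 - w ≤ h (TR.dg (cz + t * Xz) 1) (TR.dg (cz + t * Xz) u ⊔ TR.dg (cR + t * XR) 1 ⊔ TR.dg t 1) := by
  have e1 : ex S (lz G) ≤ w := by
    rw [← ex_const S w]
    refine ex_mono N.bz (C' := w) (Eventually.of_forall fun k ω _ => ⟨hw0, le_rfl⟩) hw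
  have e2 := N.z_ge
  have e3 := (N.ln.pd t).cz u hu0
  have e4 : ex S (fun k ω => max (u - lz G k ω) 0) ≤ 0 := by
    refine le_trans ?_ (ex_const S 0).le
    refine ex_le_bad (C := u) (C' := 0) ?_ (Eventually.of_forall fun k ω _ => ⟨le_rfl, le_rfl⟩) _
      hu (fun _ => 0) tendsto_const_nhds (Eventually.of_forall fun _ => le_rfl) ?_
    · filter_upwards [N.bz] with k hk ω hω
      exact ⟨le_max_right _ _, max_le (by linarith [(hk ω hω).1]) hu0⟩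
    · refine Eventually.of_forall fun k ω _ h1 => ?_
      rw [add_zero]
      exact max_le (by linarith) le_rfl
  have e6 := h_eq_zero_iff.mp (le_antisymm (e3.trans e4) (h_nonneg _ _))
  have e8 : h (TR.dg (cz + t * Xz) 1) (io G ⊔ TR.dg t 1 ⊔ TR.dg (cR + t * XR) 1) ≤
      h (TR.dg (cz + t * Xz) 1) (TR.dg (cz + t * Xz) u ⊔ TR.dg (cR + t * XR) 1 ⊔ TR.dg t 1) := by
    apply h_anti
    exact sup_le (sup_le e6 le_sup_right) (le_sup_right.trans le_sup_left)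
  linarith

/-- the exponent of the coefficient of `z` is maximal -/
theorem lz_typ {ρ : ℝ} (hρ : 0 < ρ) (U : Un S t (cR + t * XR) (cz + t * Xz) ρ) (δ : ℝ) (hδ : 0 < δ) :
    Typ (fun k ω => 1 - δ ≤ lz G k ω) := by
  classical
  by_contra hc
  obtain ⟨ε, hε⟩ : ∃ ε : ℝ, ε = ρ * δ / 2 := ⟨_, rfl⟩
  have hε0 : 0 < ε := by rw [hε]; positivity
  have hex : ∃ j : ℕ, ¬ Typ (fun k ω => (j : ℝ) * ε ≤ lz G k ω) := by
    obtain ⟨j, hj⟩ := exists_nat_ge (1 / ε)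
    refine ⟨j, fun hT => hc (typ_mono hT (Eventually.of_forall fun k ω _ h => ?_))⟩
    rw [div_le_iff₀ hε0] at hj
    linarith
  have hj := Nat.find_spec hex
  have hj0 : Nat.find hex ≠ 0 := by
    intro h0
    apply hj
    rw [h0]
    refine typ_mono Typ_true ?_
    filter_upwards [N.bz] with k hk ω hω _
    rw [Nat.cast_zero, zero_mul]
    exact (hk ω hω).1
  obtain ⟨i, hi⟩ := Nat.exists_eq_succ_of_ne_zero hj0
  have hi1 : Typ (fun k ω => (i : ℝ) * ε ≤ lz G k ω) := by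
    have := Nat.find_min hex (m := i) (by omega)
    push Not at this
    exact this
  rw [hi] at hj
  obtain ⟨u, hu⟩ : ∃ u : ℝ, u = (i : ℝ) * ε := ⟨_, rfl⟩
  have hu0 : 0 ≤ u := by rw [hu]; positivity
  have hju : ((i.succ : ℕ) : ℝ) * ε = u + ε := by rw [hu]; push_cast; ring
  rw [hju] at hj
  rw [← hu] at hi1
  have hu1 : u < 1 - δ := by
    by_contra h1
    push Not at h1
    exact hc (typ_mono hi1 (Eventually.of_forall fun k ω _ h => h1.trans h))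
  have hE0 := (typ_or (fun k ω => u + ε ≤ lz G k ω)).resolve_left hj
  obtain ⟨E, hEd⟩ : ∃ E : ∀ k, (S.F k).Ω → Prop, E = fun k ω => ¬ u + ε ≤ lz G k ω := ⟨_, rfl⟩
  rw [← hEd] at hE0
  have hlt : ∀ᶠ k in UF, ∀ ω, ((S.rest E).F k).μ ω ≠ 0 → lz (S := S) G k ω ≤ u + ε := by
    filter_upwards [Pool.Agent.Helper25.EC.rest_mem E hE0] with k hk ω hω
    have h1 := (hk ω hω).2
    rw [hEd] at h1
    exact (not_le.mp h1).le
  have hu2 : Typ (S := S.rest E) (fun k ω => u ≤ lz (S := S) G k ω) := hi1.rest E hE0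
  rw [← lz_rest E G] at hlt hu2
  have e2 := (N.rest E hE0).z_bin hu0 (by linarith) hu2 hlt
  have hR : TR.dg (TR.rest E cR + TR.rest E t * TR.rest E XR) 1 = restL E hE0 (TR.dg (cR + t * XR) 1) :=
    TR.rest_dg E hE0 (cR + t * XR) 1
  have hz : ∀ r, TR.dg (TR.rest E cz + TR.rest E t * TR.rest E Xz) r = restL E hE0 (TR.dg (cz + t * Xz) r) :=
    fun r => TR.rest_dg E hE0 (cz + t * Xz) r
  have e7 := U E hE0 u hu0 (by linarith)
  rw [hR, hz, hz, TR.rest_dg E hE0 t, ← restL_sup, ← restL_sup] at e2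
  have e9 := e2.trans e7
  have e10 : ρ * δ < ρ * (1 - u) := mul_lt_mul_of_pos_left (by linarith) hρ
  nlinarith

/-- the coefficient of `z` is maximal -/
theorem az_typ {ρ : ℝ} (hρ : 0 < ρ) (U : Un S t (cR + t * XR) (cz + t * Xz) ρ) :
    ∃ K : ℕ → ℝ, S.Sub K ∧ (∀ k, 1 ≤ K k) ∧ Typ (fun k ω => 2 ^ (2 * (S.F k).n) ≤ K k * az (G k ω)) := by
  apply typ_sub_ge
  intro e he
  refine typ_mono (N.lz_typ hρ U (e / 2) (by linarith)) ?_
  filter_upwards [N.ln.gd] with k hk ω hω h1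
  have hn := (S.F k).pos
  refine le_trans ?_ (min_log hn (hk ω hω).az_ge).2
  apply Real.rpow_le_rpow_of_exponent_le (by norm_num)
  apply mul_le_mul_of_nonneg_right _ hn.le
  have h2 : 1 - e / 2 ≤ min 1 (Real.logb 2 (az (G k ω)) / (2 * (S.F k).n)) := h1
  linarith

end Nrm

/-- quotients bounded by the coefficient -/
theorem quot_le {b q a r P K1 K2 : ℝ} (ha : 0 < a) (hq : b ^ 2 ≤ q * a) (hrq : r ^ 2 * q ≤ 16 * K1)
    (hrP : r ^ 2 * P = 1) (hP : P ≤ K2 * a) (hK1 : 0 ≤ K1) (hK2 : 0 ≤ K2) : |b / a| ≤ 16 * K1 * K2 + 1 := by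
  have hr : 0 < r ^ 2 := by
    rcases (sq_nonneg r).lt_or_eq with h | h
    · exact h
    · rw [← h, zero_mul] at hrP
      exact absurd hrP zero_ne_one
  have h1 : (b / a) ^ 2 * a ≤ q := by
    have : (b / a) ^ 2 * a = b ^ 2 / a := by field_simp
    rw [this, div_le_iff₀ ha]
    exact hq
  have h2 : r ^ 2 * ((b / a) ^ 2 * a) ≤ 16 * K1 := (mul_le_mul_of_nonneg_left h1 hr.le).trans hrq
  have h3 : 1 ≤ K2 * (r ^ 2 * a) := by
    have := mul_le_mul_of_nonneg_left hP hr.le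
    rw [hrP] at this
    linarith
  have h4 : (b / a) ^ 2 ≤ 16 * K1 * K2 := by
    have h5 : 0 ≤ (b / a) ^ 2 := sq_nonneg _
    have h6 := mul_le_mul_of_nonneg_left h3 h5
    have h7 := mul_le_mul_of_nonneg_right h2 hK2
    nlinarith
  have h8 : 0 ≤ 16 * K1 * K2 := by positivity
  apply abs_le_of_sq_le_sq _ (by linarith)
  nlinarith

/-- truncated functions -/
def trn (f : ∀ k, (S.F k).Ω → ℝ) (M : ℕ → ℝ) (hM : S.Sub M) : TR S := by
  classical
  exact ⟨fun k ω => if |f k ω| ≤ M k then f k ω else 0, by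
    refine ⟨M, hM, ?_⟩
    filter_upwards [hM.1] with k hk ω _
    split_ifs with h
    · exact h
    · rw [abs_zero]
      exact hk⟩

theorem ev_trn (f : ∀ k, (S.F k).Ω → ℝ) (M : ℕ → ℝ) (hM : S.Sub M) (k : ℕ) (ω : (S.F k).Ω) (h : |f k ω| ≤ M k) :
    TR.ev (trn f M hM) k ω = f k ω := by
  classical
  show (if |f k ω| ≤ M k then f k ω else 0) = _
  rw [if_pos h]

theorem dg_trn {α : ℕ → Type} {G : ∀ k, (S.F k).Ω → α k} (hG : Bdd G) (F : ∀ k, α k → ℝ) (M : ℕ → ℝ) (hM : S.Sub M)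
    (r : ℝ) : TR.dg (trn (fun k ω => F k (G k ω)) M hM) r ≤ io G := by
  classical
  rw [io_eq hG]
  apply TR.dg_le_cl _ _ _ (fun _ _ => True) Typ_true (fun _ => 0) (S.Sub_const le_rfl)
  refine Eventually.of_forall fun k ω ω' _ _ _ _ _ h => ?_
  have h1 : G k ω = G k ω' := h
  have h2 : TR.ev (trn (fun k ω => F k (G k ω)) M hM) k ω = TR.ev (trn (fun k ω => F k (G k ω)) M hM) k ω' := by
    show (if |F k (G k ω)| ≤ M k then F k (G k ω) else 0) = (if |F k (G k ω')| ≤ M k then F k (G k ω') else 0)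
    rw [h1]
  rw [h2, sub_self, abs_zero, zero_mul]

theorem dl_sq (S : Sp) (k : ℕ) : S.dl 1 k ^ 2 * 2 ^ (2 * (S.F k).n) = 1 := by
  unfold Sp.dl
  rw [← Real.rpow_natCast, ← Real.rpow_mul (by norm_num), ← Real.rpow_add (by norm_num)]
  have : -(1 * (S.F k).n) * ((2 : ℕ) : ℝ) + 2 * (S.F k).n = 0 := by push_cast; ring
  rw [this, Real.rpow_zero]

/-- the coefficient of `R` in the plane -/
def kR (A : Matrix M4 M4 ℝ) : ℝ := -(bf A (wv 1) (wv 2) / az A)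
/-- the coefficient of `t` in the plane -/
def kt (A : Matrix M4 M4 ℝ) : ℝ := -(bf A (wv 0) (wv 2) / az A)
/-- the constant of the plane -/
def k0 (A : Matrix M4 M4 ℝ) : ℝ := -(bf A w1 (wv 2) / az A)

/-- the coefficients at a point -/
theorem coef_pt {A : Matrix M4 M4 ℝ} (hA : Gd A) {r P n K1 K2 t R z Kt KR Kz : ℝ} (hr0 : 0 ≤ r) (hr1 : r ≤ 1)
    (hrn : r = 2 ^ (-(1 * n))) (hPn : P = 2 ^ (2 * n)) (hrP : r ^ 2 * P = 1) (hP : P ≤ K2 * az A) (hK1 : 0 ≤ K1)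
    (hK2 : 0 ≤ K2) (hphi : phi r A ![t, R, z] ≤ K1) (ht : |t| ≤ Kt) (hR : |R| ≤ KR) (hz : |z| ≤ Kz) :
    |kR A| ≤ Kz + (K1 * K2 + 1) + (16 * K1 * K2 + 1) * (Kt + KR + 1) ∧
    |kt A| ≤ Kz + (K1 * K2 + 1) + (16 * K1 * K2 + 1) * (Kt + KR + 1) ∧
    |k0 A| ≤ Kz + (K1 * K2 + 1) + (16 * K1 * K2 + 1) * (Kt + KR + 1) ∧
    |z - (k0 A + kt A * t + kR A * R)| ≤ (Kz + (K1 * K2 + 1) + (16 * K1 * K2 + 1) * (Kt + KR + 1)) * r := by
  obtain ⟨d1, d2, -⟩ := phi_ge_dir A hA r ![t, R, z]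
  have e0 : qv A 1 t R z ≤ K1 := (phi_ge_pt A hA r ![t, R, z]).trans hphi
  have c1 := quot_le hA.az_pos hA.cs_R (by linarith) hrP hP hK1 hK2
  have c2 := quot_le hA.az_pos hA.cs_t (by linarith) hrP hP hK1 hK2
  have hKt := (abs_nonneg t).trans ht
  have hKR := (abs_nonneg R).trans hR
  have hKz := (abs_nonneg z).trans hz
  have hKK : 0 ≤ K1 * K2 := mul_nonneg hK1 hK2
  have n1 : |kR A| ≤ 16 * K1 * K2 + 1 := by
    unfold kR
    rw [abs_neg]
    exact c1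
  have n2 : |kt A| ≤ 16 * K1 * K2 + 1 := by
    unfold kt
    rw [abs_neg]
    exact c2
  have hp := hA.pt_le 1 t R z
  have hD : z + (bf A w1 (wv 2) * 1 + bf A (wv 0) (wv 2) * t + bf A (wv 1) (wv 2) * R) / az A =
      z - (k0 A + kt A * t + kR A * R) := by
    unfold k0 kt kR
    ring
  rw [hD] at hp
  have hq : P * (z - (k0 A + kt A * t + kR A * R)) ^ 2 ≤ K1 * K2 := by
    have h1 := mul_le_mul_of_nonneg_right hP (sq_nonneg (z - (k0 A + kt A * t + kR A * R)))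
    have h2 := mul_le_mul_of_nonneg_left (hp.trans e0) hK2
    calc P * (z - (k0 A + kt A * t + kR A * R)) ^ 2 ≤ K2 * az A * (z - (k0 A + kt A * t + kR A * R)) ^ 2 := h1
      _ = K2 * (az A * (z - (k0 A + kt A * t + kR A * R)) ^ 2) := by ring
      _ ≤ K2 * K1 := h2
      _ = K1 * K2 := mul_comm _ _
  have n3 : |z - (k0 A + kt A * t + kR A * R)| ≤ (K1 * K2 + 1) * r := by
    rw [hrn]
    refine size_of_sq (l := 1) (a := P) ?_ hKK hq
    rw [hPn, mul_one]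
  have n4 : |k0 A| ≤ Kz + (K1 * K2 + 1) + (16 * K1 * K2 + 1) * (Kt + KR) := by
    have h1 : k0 A = z - (z - (k0 A + kt A * t + kR A * R)) - kt A * t - kR A * R := by ring
    have h2 : |kt A * t| ≤ (16 * K1 * K2 + 1) * Kt := by
      rw [abs_mul]
      exact mul_le_mul n2 ht (abs_nonneg _) (by linarith)
    have h3 : |kR A * R| ≤ (16 * K1 * K2 + 1) * KR := by
      rw [abs_mul]
      exact mul_le_mul n1 hR (abs_nonneg _) (by linarith)
    have h4 : (K1 * K2 + 1) * r ≤ K1 * K2 + 1 := mul_le_of_le_one_right (by linarith) hr1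
    have h5 := n3.trans h4
    rw [mul_add]
    rw [abs_le] at hz h2 h3 h5 ⊢
    constructor <;> linarith [hz.1, hz.2, h2.1, h2.2, h3.1, h3.2, h5.1, h5.2]
  have h0 : 0 ≤ (16 * K1 * K2 + 1) * (Kt + KR) := mul_nonneg (by linarith) (by linarith)
  rw [mul_add (16 * K1 * K2 + 1) (Kt + KR) 1, mul_one]
  refine ⟨by linarith, by linarith, by linarith, n3.trans ?_⟩
  apply mul_le_mul_of_nonneg_right _ hr0
  linarith

namespace Nrm

variable {G : ∀ k, (S.F k).Ω → Matrix M4 M4 ℝ} {t cR XR cz Xz : TR S} (N : Nrm S G t cR XR cz Xz)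

include N

theorem coef {K2 : ℕ → ℝ} (hK2 : S.Sub K2) (hT2 : Typ (fun k ω => 2 ^ (2 * (S.F k).n) ≤ K2 k * az (G k ω))) :
    ∃ M : ℕ → ℝ, S.Sub M ∧ Typ (fun k ω => |kR (G k ω)| ≤ M k ∧ |kt (G k ω)| ≤ M k ∧ |k0 (G k ω)| ≤ M k ∧
      |TR.ev (cz + t * Xz) k ω - (k0 (G k ω) + kt (G k ω) * TR.ev t k ω +
        kR (G k ω) * TR.ev (cR + t * XR) k ω)| ≤ M k * S.dl 1 k) := by
  obtain ⟨K1, hK1, hT1⟩ := (N.ln.pd t).sm
  obtain ⟨Kt, hKt, ht⟩ := t.2
  obtain ⟨KR, hKR, hR⟩ := (cR + t * XR).2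
  obtain ⟨Kz, hKz, hz⟩ := (cz + t * Xz).2
  refine ⟨fun k => Kz k + (K1 k * K2 k + 1) + (16 * K1 k * K2 k + 1) * (Kt k + KR k + 1), ?_, ?_⟩
  · have h1 := S.Sub_const zero_le_one
    have h16 := S.Sub_const (by norm_num : (0 : ℝ) ≤ 16)
    exact (hKz.add ((hK1.mul hK2).add h1)).add ((((h16.mul hK1).mul hK2).add h1).mul ((hKt.add hKR).add h1))
  · refine typ_mono (typ_and hT1 hT2) ?_
    filter_upwards [N.ln.gd, ht, hR, hz, hK1.1, hK2.1] with k g1 g2 g3 g4 g5 g6 ω hω hh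
    exact coef_pt (g1 ω hω) (S.dl_pos 1 k).le (Pool.Agent.Helper89.LX.dl_one_le S k) rfl rfl (dl_sq S k) hh.2 g5 g6
      hh.1 (g2 ω hω) (g3 ω hω) (g4 ω hω)

/-- PLANES -/
theorem plane {K2 : ℕ → ℝ} (hK2 : S.Sub K2) (hT2 : Typ (fun k ω => 2 ^ (2 * (S.F k).n) ≤ K2 k * az (G k ω))) :
    ∃ α β0 β1 : TR S, TR.dg α 1 ≤ io G ∧ TR.dg β0 1 ≤ io G ∧ TR.dg β1 1 ≤ io G ∧
      TR.Ag 1 (cz + t * Xz) (β0 + β1 * t + α * (cR + t * XR)) := by
  obtain ⟨M, hM, hT⟩ := N.coef hK2 hT2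
  refine ⟨trn (fun k ω => kR (G k ω)) M hM, trn (fun k ω => k0 (G k ω)) M hM, trn (fun k ω => kt (G k ω)) M hM,
    dg_trn N.ln.bdd (fun _ => kR) M hM 1, dg_trn N.ln.bdd (fun _ => k0) M hM 1, dg_trn N.ln.bdd (fun _ => kt) M hM 1,
    _, M, hT, hM, Eventually.of_forall fun k ω _ h => ?_⟩
  rw [TR.ev_add (trn (fun k ω => k0 (G k ω)) M hM + _), TR.ev_add (trn (fun k ω => k0 (G k ω)) M hM), TR.ev_mul,
    TR.ev_mul (trn (fun k ω => kR (G k ω)) M hM), ev_trn (fun k ω => kR (G k ω)) M hM k ω h.1,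
    ev_trn (fun k ω => kt (G k ω)) M hM k ω h.2.1, ev_trn (fun k ω => k0 (G k ω)) M hM k ω h.2.2.1]
  exact h.2.2.2

end Nrm

end

end Pool.Agent.Helper72.PLK
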