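import Pool.Agent.Helper72.PLK.Den
import Pool.Agent.Helper72.PLK.Cell
import Pool.Agent.Helper3.LF.Win
import Pool.Agent.Helper59.EV.Chain
import Pool.Agent.Helper42.NS.Njf

/-! The denoised form of degree `1` over the label `kappa_0`: it is a function of the line and of the point, bounded
along the lines. -/

set_option autoImplicit false

namespace Pool.Agent.Helper72.PLK

open Finset Filter Topology Matrix Pool.Agent.Helper69.RK Pool.Agent.Helper31.EC Pool.Agent.Helper40.EL
open Pool.Agent.Helper31.EC.Sp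
open Pool.Agent.Helper95.LF (PdM)
open Pool.Agent.Helper3.LF Pool.Agent.Helper89.LX

noncomputable section

variable {S : Sp}

/-- a variable which is a function of the label and typically of the space is a function of every condition at which
the label does not leak -/
theorem den_le {l : Lab S} (A : S.Inf) (hl : Nul S (fun k => (l k).leak (rpI A k))) {α : ℕ → Type}
    (G : ∀ k, (l k).T.Ω → α k) (hG : Bdd (S := l.sp) G)
    (hm : ∀ k ω ω', (l k).T.μ ω ≠ 0 → (l k).T.μ ω' ≠ 0 → (l k).V ω ω' → (l k).T.Z ω ω' → G k ω = G k ω')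
    (hn : Nul S (fun k => h (fc (Setoid.ker (G k)) : FL (l k).T) (l k).p.top)) :
    io (S := l.sp) G ≤ l.pj.map (cl A) := by
  rw [io_eq hG, Pj.map_cl, cl_le]
  show Tendsto _ UF (𝓝 0)
  have h1 := Tendsto.add hl hn
  rw [add_zero] at h1
  refine squeeze_zero' (Eventually.of_forall fun k => l.sp.rt_nonneg _ _ k) (Eventually.of_forall fun k => ?_) h1
  have hp := (S.F k).pos
  have e1 : l.sp.rt (hG.toInf).1 (l.pj.mapI A).1 k =
      h (fc (Setoid.ker (G k)) : FL (l k).T) ((l k).p.map (rpI A k)) / (S.F k).n := by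
    unfold Sp.rt
    rw [sp_n]
    congr 1
    exact (h_fc _ _).symm
  rw [e1, ← add_div]
  apply div_le_div_of_nonneg_right _ hp.le
  have e2 := I_eq (fc (Setoid.ker (G k)) : FL (l k).T) (l k).p.top ((l k).p.map (rpI A k))
  have e3 : I (fc (Setoid.ker (G k)) : FL (l k).T) (l k).p.top ((l k).p.map (rpI A k)) ≤
      I (l k).v (l k).p.top ((l k).p.map (rpI A k)) := by
    apply I_mono_left
    refine le_trans ?_ le_sup_left
    exact fc_le fun ω ω' a b c d => hm k ω ω' a b d c
  have e4 : h (fc (Setoid.ker (G k)) : FL (l k).T) ((l k).p.top ⊔ (l k).p.map (rpI A k)) ≤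
      h (fc (Setoid.ker (G k)) : FL (l k).T) (l k).p.top := h_anti le_sup_left
  have e5 : (l k).leak (rpI A k) = I (l k).v (l k).p.top ((l k).p.map (rpI A k)) := rfl
  linarith

end

end Pool.Agent.Helper72.PLK
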