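import Pool.Agent.Helper72.PLK.Sta

/-! The regular volume of the forms of a canonical label is at most the volume of the cells of the denoised form. -/

set_option autoImplicit false

namespace Pool.Agent.Helper72.PLK

open Finset Filter Topology Matrix Pool.Agent.Helper69.RK Pool.Agent.Helper31.EC Pool.Agent.Helper40.EL
open Pool.Agent.Helper31.EC.Sp
open Pool.Agent.Helper95.LF (PdM)
open Pool.Agent.Helper3.LF Pool.Agent.Helper89.LX
open Pool.Agent.Helper48.NS (GG one_le_GG GG_mono)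

noncomputable section

variable {S : Sp}

/-- comparison of expectations with a negligible bad event -/
theorem ex_le_bad {C C' : ℝ} {f g : ∀ k, (S.F k).Ω → ℝ} (hf : Bf S C f) (hg : Bf S C' g)
    (E : ∀ k, (S.F k).Ω → Prop) (hE : Typ E) (ε : ℕ → ℝ) (hε : Tendsto ε UF (𝓝 0)) (hε0 : ∀ᶠ k in UF, 0 ≤ ε k)
    (hh : ∀ᶠ k in UF, ∀ ω, (S.F k).μ ω ≠ 0 → E k ω → f k ω ≤ g k ω + ε k) : ex S f ≤ ex S g := by
  classical
  have hC : ∀ᶠ k in UF, 0 ≤ C := by
    filter_upwards [hf.sum] with k hk using hk.1.trans hk.2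
  have t1 := (ul_tendsto hg.ub).add (hε.add (Tendsto.const_mul C hE))
  rw [mul_zero, add_zero, add_zero] at t1
  refine le_of_tendsto_of_tendsto (ul_tendsto hf.ub) t1 ?_
  filter_upwards [hf, hg, hh, hC, hε0] with k h1 h2 h3 h4 h5
  have h6 : ∑ ω, (S.F k).μ ω * f k ω ≤ ∑ ω, (S.F k).μ ω * (g k ω + (ε k + C * e1_ind (¬ E k ω))) := by
    apply sum_le_of
    intro ω hω
    by_cases hE' : E k ω
    · rw [e1_ind_neg (not_not_intro hE'), mul_zero, add_zero]
      exact h3 ω hω hE'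
    · rw [e1_ind_pos hE', mul_one]
      have a1 := (h1 ω hω).2
      have a2 := (h2 ω hω).1
      linarith
  refine h6.trans (le_of_eq ?_)
  have h7 : ∀ ω, (S.F k).μ ω * (g k ω + (ε k + C * e1_ind (¬ E k ω))) =
      (S.F k).μ ω * g k ω + ((S.F k).μ ω * ε k + C * (e1_ind (¬ E k ω) * (S.F k).μ ω)) := fun ω => by ring
  rw [Finset.sum_congr rfl fun ω _ => h7 ω, Finset.sum_add_distrib, Finset.sum_add_distrib, sum_const',
    ← Finset.mul_sum]
  have h8 : ∑ ω, e1_ind (¬ E k ω) * (S.F k).μ ω = mass (res (S.F k).μ fun ω => ¬ E k ω) := by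
    apply Finset.sum_congr rfl
    intro ω _
    by_cases hE' : E k ω
    · rw [e1_ind_neg (not_not_intro hE'), zero_mul, res_neg (S.F k).μ (fun ω => ¬ E k ω) ω (fun hc => hc hE')]
    · rw [e1_ind_pos hE', one_mul, res_pos (S.F k).μ (fun ω => ¬ E k ω) ω hE']
  rw [h8]

/-- the logarithm of the volume at good points -/
theorem log_le {A g : Matrix M4 M4 ℝ} (hA : Gd A) (hg : Gd g) (hgA : ∀ v, qf g v ≤ qf A v) {n K r : ℝ} (hn : 0 < n)
    (hK : 1 ≤ K) (p : Fin (2 + 1) → ℝ) (hr : r = 2 ^ (-n)) (hphi : phi r A p ≤ K) :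
    Real.logb 2 (GG r g p) / (2 * n) ≤ min 1 (Real.logb 2 (az A) / (2 * n)) + min 1 (Real.logb 2 (aR A) / (2 * n)) +
      (Real.logb 2 81 / 2 + Real.logb 2 (16 * K)) / n := by
  have hr0 : 0 < r := by rw [hr]; positivity
  have hr2 : r ^ 2 * 2 ^ (2 * n) = 1 := by
    rw [hr, ← Real.rpow_natCast, ← Real.rpow_mul (by norm_num), ← Real.rpow_add (by norm_num)]
    have : -n * ((2 : ℕ) : ℝ) + 2 * n = 0 := by push_cast; ring
    rw [this, Real.rpow_zero]
  have hG : GG r g p ≤ 81 * (az A * aR A) := (GG_mono r hg.symm hA.symm hg.nonneg hgA p).trans (GG_le A hA r p)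
  have hG1 := one_le_GG r hg.symm hg.nonneg p
  have hz1 := hA.az_ge
  have hR1 := hA.aR_ge
  obtain ⟨-, d1, d2⟩ := phi_ge_dir A hA r p
  have hub : ∀ a : ℝ, r ^ 2 * a ≤ 16 * phi r A p → a ≤ 16 * K * 2 ^ (2 * n) := by
    intro a ha
    have h1 : r ^ 2 * a ≤ 16 * K := by linarith
    have h2 := mul_le_mul_of_nonneg_right h1 (show (0 : ℝ) ≤ 2 ^ (2 * n) by positivity)
    calc a = r ^ 2 * 2 ^ (2 * n) * a := by rw [hr2, one_mul]
      _ = r ^ 2 * a * 2 ^ (2 * n) := by ring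
      _ ≤ _ := h2
  have hz2 := hub _ d2
  have hR2 := hA.aR_le.trans (hub _ d1)
  have h16 : 1 ≤ 16 * K := by linarith
  have hlog : ∀ a : ℝ, 1 ≤ a → a ≤ 16 * K * 2 ^ (2 * n) →
      Real.logb 2 a / (2 * n) ≤ min 1 (Real.logb 2 a / (2 * n)) + Real.logb 2 (16 * K) / (2 * n) := by
    intro a ha1 ha2
    have l0 : 0 ≤ Real.logb 2 (16 * K) / (2 * n) := div_nonneg (Real.logb_nonneg (by norm_num) h16) (by positivity)
    have l1 := Real.logb_le_logb_of_le (b := 2) (by norm_num) (by linarith) ha2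
    rw [Real.logb_mul (by positivity) (by positivity), Real.logb_rpow (by norm_num) (by norm_num)] at l1
    have l2 : Real.logb 2 a / (2 * n) ≤ 1 + Real.logb 2 (16 * K) / (2 * n) := by
      rw [div_le_iff₀ (by positivity), add_mul, div_mul_cancel₀ _ (by positivity)]
      linarith
    rcases min_choice 1 (Real.logb 2 a / (2 * n)) with h | h <;> rw [h] <;> linarith
  have m1 := hlog _ hz1 hz2
  have m2 := hlog _ hR1 hR2
  have m3 : Real.logb 2 (GG r g p) ≤ Real.logb 2 81 + (Real.logb 2 (az A) + Real.logb 2 (aR A)) := by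
    have l1 := Real.logb_le_logb_of_le (b := 2) (by norm_num) (by linarith) hG
    rw [Real.logb_mul (by norm_num) (by positivity), Real.logb_mul (by linarith) (by linarith)] at l1
    exact l1
  have m4 := div_le_div_of_nonneg_right m3 (show 0 ≤ 2 * n by positivity)
  rw [add_div, add_div] at m4
  have m5 : (Real.logb 2 81 / 2 + Real.logb 2 (16 * K)) / n = Real.logb 2 81 / (2 * n) +
      (Real.logb 2 (16 * K) / (2 * n) + Real.logb 2 (16 * K) / (2 * n)) := by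
    field_simp
    ring
  rw [m5]
  linarith

/-- the logarithm of the volume at all points -/
theorem log_bad {g : Matrix M4 M4 ℝ} {c : ℝ} (hg : Cpd c g) (hc : 1 ≤ c) (r : ℝ) (p : Fin (2 + 1) → ℝ) :
    GG r g p ≤ 81 * (c * ((wv 1 : M4 → ℝ) ⬝ᵥ wv 1 + (wv 2 : M4 → ℝ) ⬝ᵥ wv 2)) ^ 2 := by
  have hG : Gd g := ⟨hg.1, hg.2.1⟩
  refine (GG_le g hG r p).trans ?_
  have e1 : az g ≤ c * ((wv 2 : M4 → ℝ) ⬝ᵥ wv 2) := hg.2.2 _
  have e2 : aR g ≤ c * ((wv 1 : M4 → ℝ) ⬝ᵥ wv 1) := by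
    refine hG.aR_le.trans ?_
    have := hg.2.2 (wv 1)
    unfold qv
    rw [← wv1]
    exact this
  have h1 := hG.az_ge
  have h2 := hG.aR_ge
  have d1 : 0 ≤ (wv 1 : M4 → ℝ) ⬝ᵥ wv 1 := dot_self_nonneg _
  have d2 : 0 ≤ (wv 2 : M4 → ℝ) ⬝ᵥ wv 2 := dot_self_nonneg _
  apply mul_le_mul_of_nonneg_left _ (by norm_num : (0 : ℝ) ≤ 81)
  rw [pow_two]
  apply mul_le_mul _ _ (by linarith) (by positivity)
  · nlinarith
  · nlinarith

end

end Pool.Agent.Helper72.PLK
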